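import Mathlib

set_option autoImplicit false

namespace Pool.Agent.Lib.MP_208a82_co

open MeasureTheory

section

variable {E : Type} [NormedAddCommGroup E] [NormedSpace ℝ E]

/-- A full-dimensional polytope: the convex hull of finitely many points, with nonempty interior. -/
def IsPolytope (P : Set E) : Prop :=
  (∃ s : Set E, s.Finite ∧ convexHull ℝ s = P) ∧ (interior P).Nonempty

variable (E) in
/-- The full-dimensional polytopes of `E`. -/
def Polytope : Type := {P : Set E // IsPolytope P}

/-- `Q` is obtained from `P` by inserting a point `x`: `Q` is the convex hull of `P` and `x`, and the vertex set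
(set of extreme points) of `Q` is that of `P` together with `x`. -/
def Insertion (P Q : Polytope E) : Prop :=
  ∃ x : E, Q.1 = convexHull ℝ (P.1 ∪ {x}) ∧
    Q.1.extremePoints ℝ = P.1.extremePoints ℝ ∪ {x}

variable (E) in
/-- The graph of all full-dimensional polytopes of `E`: two different polytopes are adjacent when one is obtained
from the other by a single insertion. -/
def Gamma : SimpleGraph (Polytope E) := SimpleGraph.fromRel Insertion

/-- The polytopes with volume in `I`. -/
def window [MeasureSpace E] (I : Set ℝ) : Set (Polytope E) := {P | (volume P.1).toReal ∈ I}

end

end Pool.Agent.Lib.MP_208a82_co
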