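import Mathlib
import Pool.Agent.Lib.MP_208a82_co.Defs

set_option autoImplicit false
set_option linter.unusedSectionVars false

namespace Pool.Agent.Lib.MP_208a82_co

open MeasureTheory Set Metric

section

variable {E : Type} [NormedAddCommGroup E] [NormedSpace ℝ E]

/-- convex independence of a set -/
def CI (s : Set E) : Prop := ConvexIndependent ℝ ((↑) : s → E)

lemma CI.mono {s t : Set E} (ht : CI t) (h : s ⊆ t) : CI s := ConvexIndependent.mono ht h

lemma CI_iff {s : Set E} : CI s ↔ ∀ x ∈ s, x ∉ convexHull ℝ (s \ {x}) :=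
  convexIndependent_set_iff_notMem_convexHull_sdiff

/-- volume of the convex hull -/
noncomputable def V [MeasureSpace E] (s : Set E) : ℝ := (volume (convexHull ℝ s)).toReal

lemma hull_extreme {s : Set E} (hs : s.Finite) :
    convexHull ℝ ((convexHull ℝ s).extremePoints ℝ) = convexHull ℝ s := by
  have h1 : IsCompact (convexHull ℝ s) := hs.isCompact_convexHull ℝ
  have h2 := closure_convexHull_extremePoints h1 (convex_convexHull ℝ s)
  have h3 : ((convexHull ℝ s).extremePoints ℝ).Finite := hs.subset extremePoints_convexHull_subset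
  have h4 : IsClosed (convexHull ℝ ((convexHull ℝ s).extremePoints ℝ)) := h3.isClosed_convexHull ℝ
  rw [h4.closure_eq] at h2
  exact h2

lemma extreme_of_CI {s : Set E} (hs : s.Finite) (hci : CI s) :
    (convexHull ℝ s).extremePoints ℝ = s := by
  apply Subset.antisymm extremePoints_convexHull_subset
  intro x hx
  by_contra hne
  have h1 : (convexHull ℝ s).extremePoints ℝ ⊆ s \ {x} := by
    intro y hy
    refine ⟨extremePoints_convexHull_subset hy, ?_⟩
    rintro rfl
    exact hne hy
  have h2 := convexHull_mono (𝕜 := ℝ) h1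
  rw [hull_extreme hs] at h2
  exact (CI_iff.mp hci) x hx (h2 (subset_convexHull ℝ s hx))

lemma extreme_CI {P : Set E} (hP : Convex ℝ P) : CI (P.extremePoints ℝ) :=
  hP.convexIndependent_extremePoints

end

section

variable {E : Type} [NormedAddCommGroup E] [NormedSpace ℝ E] [MeasureSpace E]

/-- two polytopes with volume in `I` lie in the same component of the windowed graph -/
def Link (I : Set ℝ) (P Q : Set E) : Prop :=
  ∃ (hP : IsPolytope P) (hQ : IsPolytope Q) (h1 : (volume P).toReal ∈ I) (h2 : (volume Q).toReal ∈ I),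
    ((Gamma E).induce (window I)).Reachable ⟨⟨P, hP⟩, h1⟩ ⟨⟨Q, hQ⟩, h2⟩

lemma Link.refl {I : Set ℝ} {P : Set E} (hP : IsPolytope P) (h1 : (volume P).toReal ∈ I) :
    Link I P P := ⟨hP, hP, h1, h1, SimpleGraph.Reachable.refl _⟩

lemma Link.symm {I : Set ℝ} {P Q : Set E} (h : Link I P Q) : Link I Q P := by
  obtain ⟨hP, hQ, h1, h2, h3⟩ := h
  exact ⟨hQ, hP, h2, h1, h3.symm⟩

lemma Link.trans {I : Set ℝ} {P Q R : Set E} (h : Link I P Q) (h' : Link I Q R) : Link I P R := by
  obtain ⟨hP, hQ, h1, h2, h3⟩ := h
  obtain ⟨hQ', hR, h1', h2', h3'⟩ := h'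
  exact ⟨hP, hR, h1, h2', h3.trans h3'⟩

lemma isPolytope_hull {s : Set E} (hs : s.Finite) (hi : (interior (convexHull ℝ s)).Nonempty) :
    IsPolytope (convexHull ℝ s) := ⟨⟨s, hs, rfl⟩, hi⟩

/-- the basic move -/
lemma link_insert {I : Set ℝ} {s : Set E} (hs : s.Finite) (x : E)
    (hci : CI (insert x s)) (hi : (interior (convexHull ℝ s)).Nonempty)
    (h1 : V s ∈ I) (h2 : V (insert x s) ∈ I) :
    Link I (convexHull ℝ s) (convexHull ℝ (insert x s)) := by
  have hs' : (insert x s).Finite := hs.insert x
  have hi' : (interior (convexHull ℝ (insert x s))).Nonempty :=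
    hi.mono (interior_mono (convexHull_mono (subset_insert x s)))
  refine ⟨isPolytope_hull hs hi, isPolytope_hull hs' hi', h1, h2, ?_⟩
  have hcis : CI s := hci.mono (subset_insert x s)
  by_cases heq : convexHull ℝ s = convexHull ℝ (insert x s)
  · have : (⟨⟨convexHull ℝ s, isPolytope_hull hs hi⟩, h1⟩ : window I) =
        ⟨⟨convexHull ℝ (insert x s), isPolytope_hull hs' hi'⟩, h2⟩ := by
      apply Subtype.ext
      apply Subtype.ext
      exact heq
    rw [this]
  · apply SimpleGraph.Adj.reachable
    rw [SimpleGraph.comap_adj]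
    rw [Gamma, SimpleGraph.fromRel_adj]
    refine ⟨fun h => heq (congrArg Subtype.val h), Or.inl ⟨x, ?_, ?_⟩⟩
    · show convexHull ℝ (insert x s) = convexHull ℝ (convexHull ℝ s ∪ {x})
      apply Subset.antisymm
      · apply convexHull_mono
        intro y hy
        rcases hy with hy | hy
        · exact Or.inr hy
        · exact Or.inl (subset_convexHull ℝ s hy)
      · apply convexHull_min _ (convex_convexHull ℝ _)
        rintro y (hy | hy)
        · exact convexHull_mono (subset_insert x s) hy
        · rw [mem_singleton_iff] at hy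
          rw [hy]
          exact subset_convexHull ℝ _ (mem_insert x s)
    · show (convexHull ℝ (insert x s)).extremePoints ℝ = (convexHull ℝ s).extremePoints ℝ ∪ {x}
      rw [extreme_of_CI hs' hci, extreme_of_CI hs hcis, union_singleton]

end

end Pool.Agent.Lib.MP_208a82_co
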