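import Mathlib
import Pool.Agent.Lib.MP_208a82_co.Basic

set_option autoImplicit false
set_option linter.unusedSectionVars false

namespace Pool.Agent.Lib.MP_208a82_co

open MeasureTheory Set Metric Filter Topology
open scoped Pointwise

section

variable {E : Type} [NormedAddCommGroup E] [NormedSpace ℝ E]
variable {ι : Type} [Fintype ι]

lemma hull_subset_cthickening {c c' : ι → E} {δ : ℝ} (hc : dist c' c ≤ δ) (A : Set ι) :
    convexHull ℝ (c' '' A) ⊆ cthickening δ (convexHull ℝ (c '' A)) := by
  apply convexHull_min _ ((convex_convexHull ℝ _).cthickening δ)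
  rintro _ ⟨j, hj, rfl⟩
  apply mem_cthickening_of_dist_le (c' j) (c j) δ _
    (subset_convexHull ℝ (c '' A) (mem_image_of_mem c hj))
  exact (dist_le_pi_dist c' c j).trans hc

lemma isOpen_notMem (i : ι) (A : Set ι) : IsOpen {c : ι → E | c i ∉ convexHull ℝ (c '' A)} := by
  rw [Metric.isOpen_iff]
  intro c hc
  by_cases hA : A = ∅
  · subst hA
    exact ⟨1, one_pos, fun c' _ => by simp⟩
  · have hAne : A.Nonempty := nonempty_iff_ne_empty.mpr hA
    set K := convexHull ℝ (c '' A) with hK
    have hKne : K.Nonempty := (hAne.image c).convexHull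
    have hKc : IsClosed K := (A.toFinite.image c).isClosed_convexHull ℝ
    have hpos : 0 < infDist (c i) K := by
      rw [← hKc.notMem_iff_infDist_pos hKne]
      exact hc
    refine ⟨infDist (c i) K / 3, by positivity, fun c' hc' => ?_⟩
    rw [mem_ball] at hc'
    intro hmem
    have h1 := hull_subset_cthickening hc'.le A hmem
    rw [mem_cthickening_iff] at h1
    have h0 : infDist (c' i) K ≤ infDist (c i) K / 3 := by
      have := ENNReal.toReal_mono ENNReal.ofReal_ne_top h1
      rwa [ENNReal.toReal_ofReal (by positivity)] at this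
    have h2 := infDist_le_infDist_add_dist (s := K) (x := c i) (y := c' i)
    have h3 : dist (c i) (c' i) ≤ infDist (c i) K / 3 := by
      rw [dist_comm]
      exact (dist_le_pi_dist c' c i).trans hc'.le
    linarith

lemma convexIndependent_iff {c : ι → E} : ConvexIndependent ℝ c ↔
    ∀ i, c i ∉ convexHull ℝ (c '' {j | j ≠ i}) := by
  rw [convexIndependent_iff_notMem_convexHull_sdiff]
  constructor
  · intro h i
    have := h i {j | j ≠ i}
    have e : ({j | j ≠ i} : Set ι) \ {i} = {j | j ≠ i} := by
      ext j
      simp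
    rwa [e] at this
  · intro h i s hmem
    apply h i
    apply convexHull_mono _ hmem
    apply image_mono
    intro j hj
    exact hj.2

lemma isOpen_CI : IsOpen {c : ι → E | ConvexIndependent ℝ c} := by
  have : {c : ι → E | ConvexIndependent ℝ c} =
      ⋂ i, {c : ι → E | c i ∉ convexHull ℝ (c '' {j | j ≠ i})} := by
    ext c
    simp [convexIndependent_iff]
  rw [this]
  exact isOpen_iInter_of_finite (fun i => isOpen_notMem i _)

end

section

variable {E : Type} [NormedAddCommGroup E] [NormedSpace ℝ E] [FiniteDimensional ℝ E]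
  [MeasureSpace E] [BorelSpace E] [(volume : Measure E).IsAddHaarMeasure]
variable {ι : Type} [Fintype ι]

lemma vol_ne_top {s : Set E} (hs : s.Finite) : volume (convexHull ℝ s) ≠ ⊤ :=
  (hs.isCompact_convexHull ℝ).measure_ne_top

lemma V_mono {s t : Set E} (ht : t.Finite) (h : s ⊆ t) : V s ≤ V t :=
  ENNReal.toReal_mono (vol_ne_top ht) (measure_mono (convexHull_mono h))

lemma V_pos {s : Set E} (hs : s.Finite) (hi : (interior (convexHull ℝ s)).Nonempty) : 0 < V s := by
  apply ENNReal.toReal_pos _ (vol_ne_top hs)
  have h1 : 0 < volume (interior (convexHull ℝ s)) := isOpen_interior.measure_pos _ hi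
  exact (h1.trans_le (measure_mono interior_subset)).ne'

lemma interior_of_V_pos {s : Set E} (h : 0 < V s) : (interior (convexHull ℝ s)).Nonempty := by
  rw [interior_convexHull_nonempty_iff_affineSpan_eq_top]
  by_contra hne
  have h1 := Measure.addHaar_affineSubspace (volume : Measure E) _ hne
  have h2 : volume (convexHull ℝ s) = 0 :=
    measure_mono_null (convexHull_subset_affineSpan s) h1
  unfold V at h
  rw [h2] at h
  simp at h

lemma V_smul (r : ℝ) (hr : 0 ≤ r) (s : Set E) :
    V (r • s) = r ^ (Module.finrank ℝ E) * V s := by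
  unfold V
  rw [convexHull_smul, Measure.addHaar_smul, ENNReal.toReal_mul, ENNReal.toReal_ofReal (abs_nonneg _),
    abs_of_nonneg (by positivity)]

lemma isOpen_V_lt (b : ℝ) : IsOpen {c : ι → E | V (range c) < b} := by
  rw [Metric.isOpen_iff]
  intro c hc
  have hcomp : IsCompact (convexHull ℝ (range c)) := (finite_range c).isCompact_convexHull ℝ
  have htend := tendsto_measure_cthickening_of_isCompact (μ := (volume : Measure E)) hcomp
  have hlt : volume (convexHull ℝ (range c)) < ENNReal.ofReal b := by
    rw [ENNReal.lt_ofReal_iff_toReal_lt (vol_ne_top (finite_range c))]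
    exact hc
  have hev := (htend.eventually_lt_const hlt)
  rw [Metric.eventually_nhds_iff] at hev
  obtain ⟨ε, hε, hev⟩ := hev
  refine ⟨ε / 2, by positivity, fun c' hc' => ?_⟩
  rw [mem_ball] at hc'
  have h1 : convexHull ℝ (range c') ⊆ cthickening (ε / 2) (convexHull ℝ (range c)) := by
    have := hull_subset_cthickening hc'.le univ
    rwa [image_univ, image_univ] at this
  have h2 : volume (cthickening (ε / 2) (convexHull ℝ (range c))) < ENNReal.ofReal b := by
    apply hev
    rw [Real.dist_eq, sub_zero, abs_of_pos (by positivity)]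
    linarith
  have h3 := (measure_mono (μ := volume) h1).trans_lt h2
  show V (range c') < b
  unfold V
  rw [← ENNReal.lt_ofReal_iff_toReal_lt (vol_ne_top (finite_range c'))]
  exact h3

omit [FiniteDimensional ℝ E] [MeasureSpace E] [BorelSpace E]
  [(volume : Measure E).IsAddHaarMeasure] in
/-- A slightly shrunk copy of the convex hull of `c` lies in the convex hull of a nearby configuration. -/
lemma homothety_subset {c c' : ι → E} {o : E} {r δ : ℝ} (hδ : 0 ≤ δ) (hδr : δ ≤ r) (hr : 0 < r)
    (hball : closedBall o r ⊆ convexHull ℝ (range c)) (hc : dist c' c ≤ δ) :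
    AffineMap.homothety o (1 - δ / r) '' (convexHull ℝ (range c)) ⊆ convexHull ℝ (range c') := by
  rintro _ ⟨z, hz, rfl⟩
  by_contra hw
  set w := AffineMap.homothety o (1 - δ / r) z with hwdef
  obtain ⟨f, u, hf1, hf2⟩ := geometric_hahn_banach_closed_point (convex_convexHull ℝ (range c'))
    ((finite_range c').isClosed_convexHull ℝ) hw
  set M := u + ‖f‖ * δ with hM
  have h1 : ∀ x ∈ convexHull ℝ (range c), f x ≤ M := by
    have hsub : range c ⊆ {x | f x ≤ M} := by
      rintro _ ⟨j, rfl⟩
      have h2 := hf1 (c' j) (subset_convexHull ℝ _ (mem_range_self j))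
      have h3 : f (c j) - f (c' j) ≤ ‖f‖ * δ := by
        rw [← map_sub]
        refine (le_abs_self _).trans ((f.le_opNorm _).trans ?_)
        apply mul_le_mul_of_nonneg_left _ (norm_nonneg _)
        rw [← dist_eq_norm, dist_comm]
        exact (dist_le_pi_dist c' c j).trans hc
      show f (c j) ≤ M
      linarith
    have hconv : Convex ℝ {x | f x ≤ M} := convex_halfSpace_le f.toLinearMap.isLinear M
    exact fun x hx => convexHull_min hsub hconv hx
  have h4 : f o + r * ‖f‖ ≤ M := by
    have h5 : ‖f‖ ≤ (M - f o) / r := by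
      have hMo : 0 ≤ M - f o := by
        have := h1 o (hball (mem_closedBall_self hr.le))
        linarith
      apply f.opNorm_le_bound (by positivity)
      intro x
      by_cases hx : x = 0
      · subst hx; simp
      · have hxn : 0 < ‖x‖ := norm_pos_iff.mpr hx
        have h6 : ∀ y : E, ‖y‖ = ‖x‖ → f y ≤ (M - f o) / r * ‖x‖ := by
          intro y hy
          have h7 : o + (r / ‖x‖) • y ∈ closedBall o r := by
            rw [mem_closedBall, dist_eq_norm, add_sub_cancel_left, norm_smul, norm_div, norm_norm, hy,
              Real.norm_of_nonneg hr.le, div_mul_cancel₀ _ hxn.ne']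
          have h8 := h1 _ (hball h7)
          rw [map_add, map_smul, smul_eq_mul] at h8
          rw [div_mul_eq_mul_div, le_div_iff₀ hr]
          have h9 : r / ‖x‖ * f y ≤ M - f o := by linarith
          rw [div_mul_eq_mul_div, div_le_iff₀ hxn] at h9
          linarith
        rw [Real.norm_eq_abs, abs_le]
        constructor
        · have := h6 (-x) (norm_neg x)
          rw [map_neg] at this
          linarith
        · exact h6 x rfl
    rw [le_div_iff₀ hr] at h5
    linarith
  have h10 : f w = f o + (1 - δ / r) * (f z - f o) := by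
    rw [hwdef, AffineMap.homothety_apply]
    simp only [vsub_eq_sub, vadd_eq_add, map_add, map_smul, map_sub, smul_eq_mul]
    ring
  have h11 := h1 z hz
  have h12 : 0 ≤ 1 - δ / r := by
    rw [sub_nonneg, div_le_one hr]; exact hδr
  have h13 : f w ≤ f o + (1 - δ / r) * (M - f o) := by
    rw [h10]
    have : (1 - δ / r) * (f z - f o) ≤ (1 - δ / r) * (M - f o) :=
      mul_le_mul_of_nonneg_left (by linarith) h12
    linarith
  have h14 : f o + (1 - δ / r) * (M - f o) ≤ u := by
    have h15 : δ / r * (r * ‖f‖) ≤ δ / r * (M - f o) :=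
      mul_le_mul_of_nonneg_left (by linarith) (by positivity)
    have h16 : δ / r * (r * ‖f‖) = ‖f‖ * δ := by
      field_simp
    have h17 : f o + (1 - δ / r) * (M - f o) = M - δ / r * (M - f o) := by ring
    rw [h17]
    linarith
  linarith

lemma isOpen_V_gt (a : ℝ) (ha : 0 ≤ a) : IsOpen {c : ι → E | a < V (range c)} := by
  rw [Metric.isOpen_iff]
  intro c hc
  have hVpos : 0 < V (range c) := lt_of_le_of_lt ha hc
  obtain ⟨o, ho⟩ := interior_of_V_pos hVpos
  rw [mem_interior_iff_mem_nhds, Metric.mem_nhds_iff] at ho
  obtain ⟨r', hr', hball'⟩ := ho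
  set r := r' / 2 with hr
  have hrpos : 0 < r := by positivity
  have hball : closedBall o r ⊆ convexHull ℝ (range c) := by
    refine Subset.trans ?_ hball'
    apply closedBall_subset_ball
    rw [hr]; linarith
  set d := Module.finrank ℝ E
  have htend : Tendsto (fun δ : ℝ => (1 - δ / r) ^ d * V (range c)) (𝓝 0) (𝓝 ((1 - 0 / r) ^ d * V (range c))) := by
    apply Continuous.tendsto
    fun_prop
  have hlim : a < (1 - 0 / r) ^ d * V (range c) := by simpa using hc
  have hev := htend.eventually_const_lt hlim
  rw [Metric.eventually_nhds_iff] at hev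
  obtain ⟨ε, hε, hev⟩ := hev
  set δ := min (ε / 2) (r / 2) with hδ
  have hδpos : 0 < δ := by positivity
  refine ⟨δ, hδpos, fun c' hc' => ?_⟩
  rw [mem_ball] at hc'
  have hδr : δ ≤ r := by
    have : δ ≤ r / 2 := min_le_right _ _
    linarith
  have h1 := homothety_subset hδpos.le hδr hrpos hball hc'.le
  have h2 := measure_mono (μ := volume) h1
  rw [Measure.addHaar_image_homothety] at h2
  have h3 : (1 - δ / r) ^ d * V (range c) ≤ V (range c') := by
    have h4 := ENNReal.toReal_mono (vol_ne_top (finite_range c')) h2
    rw [ENNReal.toReal_mul, ENNReal.toReal_ofReal (abs_nonneg _)] at h4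
    refine le_trans ?_ h4
    apply mul_le_mul_of_nonneg_right (le_abs_self _) ENNReal.toReal_nonneg
  have h5 : a < (1 - δ / r) ^ d * V (range c) := by
    apply hev
    rw [Real.dist_eq, sub_zero, abs_of_pos hδpos]
    have : δ ≤ ε / 2 := min_le_left _ _
    linarith
  exact lt_of_lt_of_le h5 h3

end

end Pool.Agent.Lib.MP_208a82_co
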