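import Mathlib
import Pool.Agent.Lib.MP_208a82_co.Open

set_option autoImplicit false
set_option linter.unusedSectionVars false

namespace Pool.Agent.Lib.MP_208a82_co

open MeasureTheory Set Metric Filter Topology
open scoped Pointwise

section

variable {E : Type} [NormedAddCommGroup E] [NormedSpace ℝ E]
variable {ι : Type}

/-- add one point to a configuration -/
def ext (c : ι → E) (y : E) : Option ι → E := fun o => o.elim y c

@[simp] lemma ext_none (c : ι → E) (y : E) : ext c y none = y := rfl
@[simp] lemma ext_some (c : ι → E) (y : E) (i : ι) : ext c y (some i) = c i := rfl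

lemma range_ext (c : ι → E) (y : E) : range (ext c y) = insert y (range c) := by
  ext z
  simp only [mem_range, mem_insert_iff, Option.exists, ext_none, ext_some]
  constructor
  · rintro (h | h)
    · exact Or.inl h.symm
    · exact Or.inr h
  · rintro (h | h)
    · exact Or.inl h.symm
    · exact Or.inr h

lemma image_ext_ne_none (c : ι → E) (y : E) : ext c y '' {o | o ≠ none} = range c := by
  ext z
  simp only [mem_image, mem_ofPred_eq, mem_range]
  constructor
  · rintro ⟨o, ho, rfl⟩
    obtain ⟨j, rfl⟩ := Option.ne_none_iff_exists'.mp ho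
    exact ⟨j, rfl⟩
  · rintro ⟨j, rfl⟩
    exact ⟨some j, by simp, rfl⟩

lemma image_ext_ne_some (c : ι → E) (y : E) (i : ι) :
    ext c y '' {o | o ≠ some i} = insert y (c '' {j | j ≠ i}) := by
  ext z
  simp only [mem_image, mem_ofPred_eq, mem_insert_iff]
  constructor
  · rintro ⟨o, ho, rfl⟩
    rcases o with _ | j
    · exact Or.inl rfl
    · exact Or.inr ⟨j, fun h => ho (by rw [h]), rfl⟩
  · rintro (h | ⟨j, hj, rfl⟩)
    · exact ⟨none, by simp, h.symm⟩
    · exact ⟨some j, fun h => hj (Option.some.inj h), rfl⟩

lemma continuous_ext (c : ι → E) : Continuous (fun y : E => ext c y) := by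
  apply continuous_pi
  intro o
  rcases o with _ | j
  · exact continuous_id
  · exact continuous_const

lemma continuous_ext' (y : E) : Continuous (fun c : ι → E => ext c y) := by
  apply continuous_pi
  intro o
  rcases o with _ | j
  · exact continuous_const
  · exact continuous_apply j

/-- a point together with an open half space is convex -/
lemma convex_halfspace_point (f : E →L[ℝ] ℝ) (p : E) : Convex ℝ {z | z = p ∨ f p < f z} := by
  intro x hx y hy s t hs ht hst
  rcases hx with rfl | hx
  · rcases hy with rfl | hy
    · left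
      rw [← add_smul, hst, one_smul]
    · rcases eq_or_lt_of_le ht with h0 | h0
      · left
        have : s = 1 := by linarith
        rw [← h0, this]; simp
      · right
        simp only [map_add, map_smul, smul_eq_mul]
        have : s * f x + t * f y > s * f x + t * f x := by nlinarith
        calc f x = s * f x + t * f x := by rw [← add_mul, hst, one_mul]
          _ < _ := this
  · rcases hy with rfl | hy
    · rcases eq_or_lt_of_le hs with h0 | h0
      · left
        have : t = 1 := by linarith
        rw [← h0, this]; simp
      · right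
        simp only [map_add, map_smul, smul_eq_mul]
        calc f y = s * f y + t * f y := by rw [← add_mul, hst, one_mul]
          _ < _ := by nlinarith
    · right
      simp only [map_add, map_smul, smul_eq_mul]
      calc f p = s * f p + t * f p := by rw [← add_mul, hst, one_mul]
        _ < _ := by
          rcases eq_or_lt_of_le hs with h0 | h0
          · have : t = 1 := by linarith
            rw [← h0, this]; linarith
          · nlinarith

lemma notMem_hull_insert (f : E →L[ℝ] ℝ) (p q : E) (S : Set E) (hpq : f p = f q) (hne : q ≠ p)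
    (hS : ∀ z ∈ S, f p < f z) : q ∉ convexHull ℝ (insert p S) := by
  intro hq
  have hsub : insert p S ⊆ {z | z = p ∨ f p < f z} := by
    intro z hz
    rcases hz with hz | hz
    · exact Or.inl hz
    · exact Or.inr (hS z hz)
  rcases convexHull_min hsub (convex_halfspace_point f p) hq with h | h
  · exact hne h
  · rw [hpq] at h
    exact lt_irrefl _ h

/-- strict separation of a vertex from the others -/
lemma vertex_functional [Fintype ι] {c : ι → E} (hc : ConvexIndependent ℝ c) (i : ι) :
    ∃ f : E →L[ℝ] ℝ, ∀ j, j ≠ i → f (c i) < f (c j) := by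
  have h1 := (convexIndependent_iff.mp hc) i
  obtain ⟨f, u, hf1, hf2⟩ := geometric_hahn_banach_point_closed (convex_convexHull ℝ _)
    (((toFinite {j : ι | j ≠ i}).image c).isClosed_convexHull ℝ) h1
  exact ⟨f, fun j hj => hf1.trans (hf2 (c j) (subset_convexHull ℝ _ (mem_image_of_mem c hj)))⟩

lemma range_eq_insert (c : ι → E) (i : ι) : range c = insert (c i) (c '' {j | j ≠ i}) := by
  ext z
  simp only [mem_range, mem_insert_iff, mem_image, mem_ofPred_eq]
  constructor
  · rintro ⟨j, rfl⟩
    by_cases h : j = i
    · left; rw [h]
    · right; exact ⟨j, h, rfl⟩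
  · rintro (rfl | ⟨j, _, rfl⟩)
    · exact ⟨i, rfl⟩
    · exact ⟨j, rfl⟩

lemma eventually_CI_ext [Fintype ι] {c : ι → E} (hc : ConvexIndependent ℝ c) (i : ι)
    (f : E →L[ℝ] ℝ) (hf : ∀ j, j ≠ i → f (c i) < f (c j)) (h : E) (hh : h ≠ 0) (hfh : f h = 0) :
    ∀ᶠ t in 𝓝[≠] (0 : ℝ), ConvexIndependent ℝ (ext c (c i + t • h)) := by
  have hcont : Continuous (fun t : ℝ => ext c (c i + t • h)) :=
    (continuous_ext c).comp (by fun_prop)
  have hopen : ∀ j, j ≠ i → ∀ᶠ t in 𝓝[≠] (0 : ℝ),
      ext c (c i + t • h) (some j) ∉ convexHull ℝ (ext c (c i + t • h) '' {o | o ≠ some j}) := by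
    intro j hj
    apply Filter.Eventually.filter_mono nhdsWithin_le_nhds
    have h1 : IsOpen {t : ℝ | ext c (c i + t • h) (some j) ∉
        convexHull ℝ (ext c (c i + t • h) '' {o | o ≠ some j})} :=
      (isOpen_notMem (E := E) (some j) {o | o ≠ some j}).preimage hcont
    apply h1.mem_nhds
    show ext c (c i + (0 : ℝ) • h) (some j) ∉
        convexHull ℝ (ext c (c i + (0 : ℝ) • h) '' {o | o ≠ some j})
    rw [zero_smul, add_zero, image_ext_ne_some, ext_some, insert_eq_of_mem]
    · exact (convexIndependent_iff.mp hc) j
    · exact mem_image_of_mem c (show i ∈ {j' | j' ≠ j} from fun h' => hj h'.symm)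
  have hall : ∀ᶠ t in 𝓝[≠] (0 : ℝ), ∀ j, j ≠ i →
      ext c (c i + t • h) (some j) ∉ convexHull ℝ (ext c (c i + t • h) '' {o | o ≠ some j}) := by
    rw [eventually_all]
    intro j
    by_cases hj : j = i
    · exact Eventually.of_forall (fun t h' => absurd hj h')
    · filter_upwards [hopen j hj] with t ht _ using ht
  filter_upwards [hall, self_mem_nhdsWithin] with t ht ht0
  have ht0' : t ≠ 0 := ht0
  have hne : c i + t • h ≠ c i := by
    intro h'
    have : t • h = 0 := by
      have := congrArg (fun z => z - c i) h'
      simpa using this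
    rcases smul_eq_zero.mp this with h1 | h1
    · exact ht0' h1
    · exact hh h1
  have hfeq : f (c i + t • h) = f (c i) := by
    rw [map_add, map_smul, hfh]; simp
  rw [convexIndependent_iff]
  intro o
  rcases o with _ | j
  · rw [image_ext_ne_none, ext_none, range_eq_insert c i]
    apply notMem_hull_insert f (c i) (c i + t • h) _ hfeq.symm hne
    rintro _ ⟨j, hj, rfl⟩
    exact hf j hj
  · by_cases hj : j = i
    · subst hj
      rw [image_ext_ne_some, ext_some]
      apply notMem_hull_insert f (c j + t • h) (c j) _ hfeq hne.symm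
      rintro _ ⟨l, hl, rfl⟩
      rw [hfeq]
      exact hf l hl
    · exact ht j hj

/-- a nonzero vector in the kernel of a functional in dimension at least two -/
lemma exists_ker (hdim : 2 ≤ Module.finrank ℝ E) (f : E →L[ℝ] ℝ) : ∃ h : E, h ≠ 0 ∧ f h = 0 := by
  by_contra hcon
  push Not at hcon
  have hinj : Function.Injective f.toLinearMap := by
    rw [injective_iff_map_eq_zero]
    intro x hx
    by_contra hx0
    exact hcon x hx0 hx
  have := LinearMap.finrank_le_finrank_of_injective hinj
  rw [Module.finrank_self] at this
  omega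

end

section

variable {E : Type} [NormedAddCommGroup E] [NormedSpace ℝ E] [FiniteDimensional ℝ E]
  [MeasureSpace E] [BorelSpace E] [(volume : Measure E).IsAddHaarMeasure]
variable {ι : Type} [Fintype ι]

lemma CI_range {c : ι → E} (hc : ConvexIndependent ℝ c) : CI (range c) := hc.range

lemma CI_insert_of_ext {c : ι → E} {y : E} (hc : ConvexIndependent ℝ (ext c y)) :
    CI (insert y (range c)) := by
  rw [← range_ext]
  exact hc.range

/-- Nearby configurations are linked. -/
lemma local_link (hdim : 2 ≤ Module.finrank ℝ E) {a b : ℝ} (ha : 0 ≤ a) {c : ι → E}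
    (hc : ConvexIndependent ℝ c) (hV : V (range c) ∈ Ioo a b) :
    ∀ᶠ c' in 𝓝 c, Link (Ioo a b) (convexHull ℝ (range c)) (convexHull ℝ (range c')) := by
  classical
  -- the auxiliary points
  have haux : ∀ i : ι, ∃ y : E, ∀ᶠ c' in 𝓝 c, ConvexIndependent ℝ (ext c' y) ∧
      V (range (ext c' y)) < b ∧ a < V (range c') ∧ a < V (range (Function.update c' i y)) := by
    intro i
    obtain ⟨f, hf⟩ := vertex_functional hc i
    obtain ⟨h, hh, hfh⟩ := exists_ker hdim f
    have e1 := eventually_CI_ext hc i f hf h hh hfh
    have hcont : Continuous (fun t : ℝ => ext c (c i + t • h)) :=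
      (continuous_ext c).comp (by fun_prop)
    have e2 : ∀ᶠ t in 𝓝[≠] (0 : ℝ), V (range (ext c (c i + t • h))) < b := by
      apply Filter.Eventually.filter_mono nhdsWithin_le_nhds
      have h1 : IsOpen {t : ℝ | V (range (ext c (c i + t • h))) < b} :=
        (isOpen_V_lt (E := E) (ι := Option ι) b).preimage hcont
      apply h1.mem_nhds
      show V (range (ext c (c i + (0 : ℝ) • h))) < b
      rw [zero_smul, add_zero, range_ext, insert_eq_of_mem (mem_range_self i)]
      exact hV.2
    have hcont2 : Continuous (fun t : ℝ => Function.update c i (c i + t • h)) := by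
      apply continuous_pi
      intro j
      by_cases hj : j = i
      · subst hj
        simp only [Function.update_self]
        fun_prop
      · simp only [Function.update_of_ne hj]
        fun_prop
    have e3 : ∀ᶠ t in 𝓝[≠] (0 : ℝ), a < V (range (Function.update c i (c i + t • h))) := by
      apply Filter.Eventually.filter_mono nhdsWithin_le_nhds
      have h1 : IsOpen {t : ℝ | a < V (range (Function.update c i (c i + t • h)))} :=
        (isOpen_V_gt (E := E) (ι := ι) a ha).preimage hcont2
      apply h1.mem_nhds
      show a < V (range (Function.update c i (c i + (0 : ℝ) • h)))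
      rw [zero_smul, add_zero, Function.update_eq_self]
      exact hV.1
    obtain ⟨t, ht1, ht2, ht3⟩ := (e1.and (e2.and e3)).exists
    refine ⟨c i + t • h, ?_⟩
    set y := c i + t • h
    have o1 : ∀ᶠ c' in 𝓝 c, ConvexIndependent ℝ (ext c' y) :=
      ((isOpen_CI (E := E) (ι := Option ι)).preimage (continuous_ext' y)).mem_nhds ht1
    have o2 : ∀ᶠ c' in 𝓝 c, V (range (ext c' y)) < b :=
      ((isOpen_V_lt (E := E) (ι := Option ι) b).preimage (continuous_ext' y)).mem_nhds ht2
    have o3 : ∀ᶠ c' in 𝓝 c, a < V (range c') :=
      (isOpen_V_gt (E := E) (ι := ι) a ha).mem_nhds hV.1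
    have hcont3 : Continuous (fun c' : ι → E => Function.update c' i y) := by fun_prop
    have o4 : ∀ᶠ c' in 𝓝 c, a < V (range (Function.update c' i y)) :=
      ((isOpen_V_gt (E := E) (ι := ι) a ha).preimage hcont3).mem_nhds ht3
    filter_upwards [o1, o2, o3, o4] with c' h1 h2 h3 h4 using ⟨h1, h2, h3, h4⟩
  choose y hy using haux
  have hev : ∀ᶠ c' in 𝓝 c, ∀ i, ConvexIndependent ℝ (ext c' (y i)) ∧
      V (range (ext c' (y i))) < b ∧ a < V (range c') ∧
      a < V (range (Function.update c' i (y i))) := by
    rw [eventually_all]
    exact hy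
  rw [Metric.eventually_nhds_iff_ball] at hev
  obtain ⟨δ, hδ, hev⟩ := hev
  -- move one coordinate to the auxiliary point
  have hmove : ∀ c' ∈ ball c δ, ∀ i, Link (Ioo a b) (convexHull ℝ (range c'))
      (convexHull ℝ (range (Function.update c' i (y i)))) := by
    intro c' hc' i
    obtain ⟨h1, h2, h3, h4⟩ := hev c' hc' i
    rw [range_ext] at h2
    have hci := CI_insert_of_ext h1
    have hfin : (range c').Finite := finite_range c'
    have hle : V (range c') ≤ V (insert (y i) (range c')) :=
      V_mono (hfin.insert _) (subset_insert _ _)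
    have l1 : Link (Ioo a b) (convexHull ℝ (range c')) (convexHull ℝ (insert (y i) (range c'))) := by
      apply link_insert hfin (y i) hci (interior_of_V_pos (lt_of_le_of_lt ha h3))
      · exact ⟨h3, lt_of_le_of_lt hle h2⟩
      · exact ⟨lt_of_lt_of_le h3 hle, h2⟩
    have hr : insert (c' i) (range (Function.update c' i (y i))) = insert (y i) (range c') := by
      rw [range_eq_insert c' i, range_eq_insert (Function.update c' i (y i)) i]
      rw [Function.update_self]
      have : Function.update c' i (y i) '' {j | j ≠ i} = c' '' {j | j ≠ i} := by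
        apply image_congr
        intro j hj
        exact Function.update_of_ne hj _ _
      rw [this, insert_comm]
    have hfin2 : (range (Function.update c' i (y i))).Finite := finite_range _
    have hle2 : V (range (Function.update c' i (y i))) ≤ V (insert (y i) (range c')) := by
      rw [← hr]
      exact V_mono (hfin2.insert _) (subset_insert _ _)
    have l2 : Link (Ioo a b) (convexHull ℝ (range (Function.update c' i (y i))))
        (convexHull ℝ (insert (y i) (range c'))) := by
      rw [← hr]
      apply link_insert hfin2 (c' i) (by rw [hr]; exact hci)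
        (interior_of_V_pos (lt_of_le_of_lt ha h4))
      · exact ⟨h4, lt_of_le_of_lt hle2 h2⟩
      · rw [hr]
        exact ⟨lt_of_lt_of_le h3 hle, h2⟩
    exact l1.trans l2.symm
  -- change one coordinate after the other
  have hpw : ∀ c' ∈ ball c δ, ∀ A : Finset ι, A.piecewise c' c ∈ ball c δ := by
    intro c' hc' A
    rw [mem_ball, dist_pi_lt_iff hδ] at hc' ⊢
    intro j
    by_cases hj : j ∈ A
    · rw [Finset.piecewise_eq_of_mem _ _ _ hj]; exact hc' j
    · rw [Finset.piecewise_eq_of_notMem _ _ _ hj, dist_self]; exact hδ
  have hfinal : ∀ c' ∈ ball c δ, ∀ A : Finset ι, Link (Ioo a b) (convexHull ℝ (range c))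
      (convexHull ℝ (range (A.piecewise c' c))) := by
    intro c' hc' A
    induction A using Finset.induction_on with
    | empty =>
      rw [Finset.piecewise_empty]
      exact Link.refl (isPolytope_hull (finite_range c)
        (interior_of_V_pos (lt_of_le_of_lt ha hV.1))) hV
    | insert i A hi ih =>
      refine ih.trans ?_
      have m1 := hmove _ (hpw c' hc' A) i
      have m2 := hmove _ (hpw c' hc' (insert i A)) i
      rw [Finset.piecewise_insert, Function.update_idem] at m2
      rw [Finset.piecewise_insert]
      exact m1.trans m2.symm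
  rw [Metric.eventually_nhds_iff_ball]
  refine ⟨δ, hδ, fun c' hc' => ?_⟩
  have := hfinal c' hc' Finset.univ
  rwa [Finset.piecewise_univ] at this

end

end Pool.Agent.Lib.MP_208a82_co
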