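import Mathlib
import Pool.Agent.Lib.MP_208a82_co.Local

set_option autoImplicit false
set_option linter.unusedSectionVars false

namespace Pool.Agent.Lib.MP_208a82_co

open MeasureTheory Set Metric Filter Topology
open scoped Pointwise

section

variable {E : Type} [NormedAddCommGroup E] [NormedSpace ℝ E] [FiniteDimensional ℝ E]
  [MeasureSpace E] [BorelSpace E] [(volume : Measure E).IsAddHaarMeasure]
variable {ι : Type} [Fintype ι]

/-- Configurations in a preconnected set of good configurations are linked. -/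
lemma link_of_preconnected (hdim : 2 ≤ Module.finrank ℝ E) {a b : ℝ} (ha : 0 ≤ a)
    {S : Set (ι → E)} (hS : IsPreconnected S)
    (hSU : ∀ c ∈ S, ConvexIndependent ℝ c ∧ V (range c) ∈ Ioo a b) {c c' : ι → E}
    (hc : c ∈ S) (hc' : c' ∈ S) :
    Link (Ioo a b) (convexHull ℝ (range c)) (convexHull ℝ (range c')) := by
  let U : Set (ι → E) := {x | ConvexIndependent ℝ x ∧ V (range x) ∈ Ioo a b}
  have hU : IsOpen U := by
    have : U = {x | ConvexIndependent ℝ x} ∩ ({x | a < V (range x)} ∩ {x | V (range x) < b}) := by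
      ext x
      simp [U]
    rw [this]
    exact isOpen_CI.inter ((isOpen_V_gt a ha).inter (isOpen_V_lt b))
  let A : Set (ι → E) := {x | x ∈ U ∧ Link (Ioo a b) (convexHull ℝ (range c)) (convexHull ℝ (range x))}
  let B : Set (ι → E) := {x | x ∈ U ∧ ¬ Link (Ioo a b) (convexHull ℝ (range c)) (convexHull ℝ (range x))}
  have hA : IsOpen A := by
    rw [isOpen_iff_mem_nhds]
    intro x hx
    have h1 := local_link hdim ha hx.1.1 hx.1.2
    filter_upwards [h1, hU.mem_nhds hx.1] with y hy hyU
    exact ⟨hyU, hx.2.trans hy⟩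
  have hB : IsOpen B := by
    rw [isOpen_iff_mem_nhds]
    intro x hx
    have h1 := local_link hdim ha hx.1.1 hx.1.2
    filter_upwards [h1, hU.mem_nhds hx.1] with y hy hyU
    exact ⟨hyU, fun h => hx.2 (h.trans hy.symm)⟩
  have hcA : c ∈ A := by
    refine ⟨hSU c hc, Link.refl (isPolytope_hull (finite_range c)
      (interior_of_V_pos (lt_of_le_of_lt ha (hSU c hc).2.1))) (hSU c hc).2⟩
  by_contra hcon
  have hcB : c' ∈ B := ⟨hSU c' hc', hcon⟩
  have hcov : S ⊆ A ∪ B := by
    intro x hx
    by_cases h : Link (Ioo a b) (convexHull ℝ (range c)) (convexHull ℝ (range x))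
    · exact Or.inl ⟨hSU x hx, h⟩
    · exact Or.inr ⟨hSU x hx, h⟩
  obtain ⟨x, _, hxA, hxB⟩ := hS A B hA hB hcov ⟨c, hc, hcA⟩ ⟨c', hc', hcB⟩
  exact hxB.2 hxA.2

lemma CI_smul_config {c : ι → E} (hc : ConvexIndependent ℝ c) {r : ℝ} (hr : r ≠ 0) :
    ConvexIndependent ℝ (r • c) := by
  rw [convexIndependent_iff] at hc ⊢
  intro i hi
  apply hc i
  have h1 : (r • c) '' {j | j ≠ i} = r • (c '' {j | j ≠ i}) := by
    rw [← image_smul, image_image]
    rfl
  rw [h1, convexHull_smul, Pi.smul_apply, smul_mem_smul_set_iff₀ hr] at hi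
  exact hi

lemma range_smul_config (c : ι → E) (r : ℝ) : range (r • c) = r • range c := by
  rw [← image_smul, ← range_comp]
  rfl

lemma V_smul_mem {a b : ℝ} {s : Set E} {r r' t : ℝ} (hr : 0 < r) (hr' : 0 < r')
    (h1 : V (r • s) ∈ Ioo a b) (h2 : V (r' • s) ∈ Ioo a b) (ht : t ∈ uIcc r r') :
    0 < t ∧ V (t • s) ∈ Ioo a b := by
  wlog hle : r ≤ r' generalizing r r'
  · exact this hr' hr h2 h1 (by rwa [uIcc_comm]) (le_of_not_ge hle)
  rw [uIcc_of_le hle] at ht
  have ht0 : 0 < t := lt_of_lt_of_le hr ht.1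
  refine ⟨ht0, ?_⟩
  have hV0 : 0 ≤ V s := ENNReal.toReal_nonneg
  rw [V_smul _ ht0.le]
  rw [V_smul _ hr.le] at h1
  rw [V_smul _ hr'.le] at h2
  constructor
  · refine lt_of_lt_of_le h1.1 ?_
    apply mul_le_mul_of_nonneg_right _ hV0
    exact pow_le_pow_left₀ hr.le ht.1 _
  · refine lt_of_le_of_lt ?_ h2.2
    apply mul_le_mul_of_nonneg_right _ hV0
    exact pow_le_pow_left₀ ht0.le ht.2 _

/-- two homothetic copies of the same polytope are linked -/
lemma scale_link (hdim : 2 ≤ Module.finrank ℝ E) {a b : ℝ} (ha : 0 ≤ a) {c : ι → E}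
    (hc : ConvexIndependent ℝ c) {r r' : ℝ} (hr : 0 < r) (hr' : 0 < r')
    (h1 : V (r • range c) ∈ Ioo a b) (h2 : V (r' • range c) ∈ Ioo a b) :
    Link (Ioo a b) (convexHull ℝ (r • range c)) (convexHull ℝ (r' • range c)) := by
  have hS : IsPreconnected ((fun t : ℝ => t • c) '' (uIcc r r')) :=
    isPreconnected_uIcc.image _ (by fun_prop)
  have := link_of_preconnected hdim ha hS (c := r • c) (c' := r' • c) (by
    rintro _ ⟨t, ht, rfl⟩
    obtain ⟨ht0, htV⟩ := V_smul_mem hr hr' h1 h2 ht
    refine ⟨CI_smul_config hc ht0.ne', ?_⟩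
    simp only
    rw [range_smul_config]
    exact htV) ⟨r, left_mem_uIcc, rfl⟩ ⟨r', right_mem_uIcc, rfl⟩
  rwa [range_smul_config, range_smul_config] at this

/-- scale-invariant equivalence -/
def Eqv (a b : ℝ) (s t : Set E) : Prop :=
  ∀ r r' : ℝ, 0 < r → 0 < r' → V (r • s) ∈ Ioo a b → V (r' • t) ∈ Ioo a b →
    Link (Ioo a b) (convexHull ℝ (r • s)) (convexHull ℝ (r' • t))

lemma exists_scale (hdim : 2 ≤ Module.finrank ℝ E) {s : Set E} (hs : 0 < V s) {v : ℝ} (hv : 0 < v) :
    ∃ r : ℝ, 0 < r ∧ V (r • s) = v := by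
  have hd : Module.finrank ℝ E ≠ 0 := by omega
  refine ⟨(v / V s) ^ ((Module.finrank ℝ E : ℝ)⁻¹), by positivity, ?_⟩
  rw [V_smul _ (by positivity), Real.rpow_inv_natCast_pow (by positivity) hd,
    div_mul_cancel₀ _ hs.ne']

lemma Eqv.symm {a b : ℝ} {s t : Set E} (h : Eqv a b s t) : Eqv a b t s :=
  fun r r' hr hr' h1 h2 => (h r' r hr' hr h2 h1).symm

lemma Eqv.trans (hdim : 2 ≤ Module.finrank ℝ E) {a b : ℝ} (ha : 0 ≤ a) (hab : a < b)
    {s t u : Set E} (ht : 0 < V t) (h : Eqv a b s t) (h' : Eqv a b t u) : Eqv a b s u := by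
  intro r r' hr hr' h1 h2
  obtain ⟨ν, hν, hVν⟩ := exists_scale hdim ht (v := (a + b) / 2) (by linarith)
  have hmem : V (ν • t) ∈ Ioo a b := by rw [hVν]; constructor <;> linarith
  exact (h r ν hr hν h1 hmem).trans (h' ν r' hν hr' hmem h2)

lemma Eqv.refl_config (hdim : 2 ≤ Module.finrank ℝ E) {a b : ℝ} (ha : 0 ≤ a) {c : ι → E}
    (hc : ConvexIndependent ℝ c) : Eqv a b (range c) (range c) :=
  fun _ _ hr hr' h1 h2 => scale_link hdim ha hc hr hr' h1 h2

lemma eqv_local (hdim : 2 ≤ Module.finrank ℝ E) {a b : ℝ} (ha : 0 ≤ a) (hab : a < b) {c : ι → E}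
    (hc : ConvexIndependent ℝ c) (hV : 0 < V (range c)) :
    ∀ᶠ c' in 𝓝 c, Eqv a b (range c) (range c') := by
  obtain ⟨ν, hν, hVν⟩ := exists_scale hdim hV (v := (a + b) / 2) (by linarith)
  have hmem : V (range (ν • c)) ∈ Ioo a b := by
    rw [range_smul_config, hVν]; constructor <;> linarith
  have h1 := local_link hdim ha (CI_smul_config hc hν.ne') hmem
  have hcont : Continuous (fun c' : ι → E => ν • c') := by fun_prop
  have h2 := hcont.continuousAt.eventually h1
  filter_upwards [h2, isOpen_CI.mem_nhds hc] with c' hl hc'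
  rw [range_smul_config, range_smul_config] at hl
  rw [range_smul_config] at hmem
  have hmem' : V (ν • range c') ∈ Ioo a b := hl.choose_spec.choose_spec.choose_spec.choose
  intro r r' hr hr' h3 h4
  exact ((scale_link hdim ha hc hr hν h3 hmem).trans hl).trans (scale_link hdim ha hc' hν hr' hmem' h4)

lemma eqv_of_preconnected (hdim : 2 ≤ Module.finrank ℝ E) {a b : ℝ} (ha : 0 ≤ a) (hab : a < b)
    {S : Set (ι → E)} (hS : IsPreconnected S)
    (hSU : ∀ c ∈ S, ConvexIndependent ℝ c ∧ 0 < V (range c)) {c c' : ι → E}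
    (hc : c ∈ S) (hc' : c' ∈ S) : Eqv a b (range c) (range c') := by
  let U : Set (ι → E) := {x | ConvexIndependent ℝ x ∧ 0 < V (range x)}
  have hU : IsOpen U := isOpen_CI.inter (isOpen_V_gt 0 le_rfl)
  let A : Set (ι → E) := {x | x ∈ U ∧ Eqv a b (range c) (range x)}
  let B : Set (ι → E) := {x | x ∈ U ∧ ¬ Eqv a b (range c) (range x)}
  have hA : IsOpen A := by
    rw [isOpen_iff_mem_nhds]
    intro x hx
    have h1 := eqv_local hdim ha hab hx.1.1 hx.1.2
    filter_upwards [h1, hU.mem_nhds hx.1] with y hy hyU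
    exact ⟨hyU, Eqv.trans hdim ha hab hx.1.2 hx.2 hy⟩
  have hB : IsOpen B := by
    rw [isOpen_iff_mem_nhds]
    intro x hx
    have h1 := eqv_local hdim ha hab hx.1.1 hx.1.2
    filter_upwards [h1, hU.mem_nhds hx.1] with y hy hyU
    exact ⟨hyU, fun h => hx.2 (Eqv.trans hdim ha hab hyU.2 h hy.symm)⟩
  have hcA : c ∈ A := ⟨hSU c hc, Eqv.refl_config hdim ha (hSU c hc).1⟩
  by_contra hcon
  have hcB : c' ∈ B := ⟨hSU c' hc', hcon⟩
  have hcov : S ⊆ A ∪ B := by
    intro x hx
    by_cases h : Eqv a b (range c) (range x)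
    · exact Or.inl ⟨hSU x hx, h⟩
    · exact Or.inr ⟨hSU x hx, h⟩
  obtain ⟨x, _, hxA, hxB⟩ := hS A B hA hB hcov ⟨c, hc, hcA⟩ ⟨c', hc', hcB⟩
  exact hxB.2 hxA.2

/-- Inserting a point which adds only little volume. -/
lemma eqv_insert_small (hdim : 2 ≤ Module.finrank ℝ E) {a b : ℝ} (ha : 0 < a) (hab : a < b)
    {c : ι → E} {x : E} (hc : ConvexIndependent ℝ (ext c x)) (hcc : ConvexIndependent ℝ c)
    (hV : 0 < V (range c))
    (hsmall : a * V (insert x (range c)) < b * V (range c)) :
    Eqv a b (range c) (insert x (range c)) := by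
  set V1 := V (range c) with hV1
  set V2 := V (insert x (range c)) with hV2
  have hle : V1 ≤ V2 := V_mono ((finite_range c).insert x) (subset_insert _ _)
  have hV2pos : 0 < V2 := lt_of_lt_of_le hV hle
  -- choose the volume w of the scaled polytope: a < w and w * V2 / V1 < b
  have hw : a < b * V1 / V2 := by
    rw [lt_div_iff₀ hV2pos]; exact hsmall
  obtain ⟨w, hw1, hw2⟩ := exists_between hw
  have hwpos : 0 < w := ha.trans hw1
  obtain ⟨ν, hν, hVν⟩ := exists_scale hdim hV hwpos
  have hle' : b * V1 / V2 ≤ b := by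
    rw [div_le_iff₀ hV2pos]
    exact mul_le_mul_of_nonneg_left hle (by linarith)
  have hmem1 : V (ν • range c) ∈ Ioo a b := by
    rw [hVν]; exact ⟨hw1, lt_of_lt_of_le hw2 hle'⟩
  have hmem2 : V (ν • insert x (range c)) ∈ Ioo a b := by
    rw [V_smul _ hν.le] at hVν ⊢
    rw [← hV1] at hVν
    rw [← hV2]
    constructor
    · calc a < w := hw1
        _ = ν ^ Module.finrank ℝ E * V1 := hVν.symm
        _ ≤ _ := mul_le_mul_of_nonneg_left hle (by positivity)
    · have h1 : w * V2 < b * V1 := by
        rwa [lt_div_iff₀ hV2pos] at hw2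
      have h2 : ν ^ Module.finrank ℝ E * V2 * V1 < b * V1 := by
        calc ν ^ Module.finrank ℝ E * V2 * V1 = (ν ^ Module.finrank ℝ E * V1) * V2 := by ring
          _ = w * V2 := by rw [hVν]
          _ < b * V1 := h1
      exact lt_of_mul_lt_mul_right h2 hV.le
  have hset : ν • insert x (range c) = insert (ν • x) (ν • range c) := by
    rw [smul_set_insert]
  have hci : CI (insert (ν • x) (ν • range c)) := by
    have h1 := CI_range (CI_smul_config hc hν.ne')
    rw [range_smul_config, range_ext, hset] at h1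
    exact h1
  have hl : Link (Ioo a b) (convexHull ℝ (ν • range c)) (convexHull ℝ (ν • insert x (range c))) := by
    rw [hset]
    apply link_insert ((finite_range c).smul_set) (ν • x) hci
      (interior_of_V_pos (ha.trans hmem1.1)) hmem1
    rw [← hset]
    exact hmem2
  intro r r' hr hr' h3 h4
  have hl1 := scale_link hdim ha.le hcc hr hν h3 hmem1
  have hl2 : Link (Ioo a b) (convexHull ℝ (ν • insert x (range c)))
      (convexHull ℝ (r' • insert x (range c))) := by
    have := scale_link hdim ha.le hc hν hr' (a := a) (b := b) (by rw [range_ext]; exact hmem2)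
      (by rw [range_ext]; exact h4)
    rwa [range_ext] at this
  exact (hl1.trans hl).trans hl2

/-- Inserting a point. -/
lemma eqv_insert_config (hdim : 2 ≤ Module.finrank ℝ E) {a b : ℝ} (ha : 0 < a) (hab : a < b)
    {c : ι → E} {x : E} (hc : ConvexIndependent ℝ (ext c x)) (hcc : ConvexIndependent ℝ c)
    (hV : 0 < V (range c)) :
    Eqv a b (range c) (insert x (range c)) := by
  set K := convexHull ℝ (range c) with hK
  have hKc : IsClosed K := (finite_range c).isClosed_convexHull ℝ
  have hKne : K.Nonempty := (interior_of_V_pos hV).mono interior_subset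
  obtain ⟨p, hp⟩ := hKne
  let γ : ℝ → E := fun t => AffineMap.lineMap x p t
  have hγc : Continuous γ := AffineMap.lineMap_continuous
  have hγ0 : γ 0 = x := AffineMap.lineMap_apply_zero x p
  have hγ1 : γ 1 = p := AffineMap.lineMap_apply_one x p
  have hxK : x ∉ K := by
    have := (convexIndependent_iff.mp hc) none
    rwa [image_ext_ne_none, ext_none] at this
  -- first entrance time
  set A : Set ℝ := Icc 0 1 ∩ γ ⁻¹' K with hA
  have hAc : IsClosed A := isClosed_Icc.inter (hKc.preimage hγc)
  have hAcomp : IsCompact A := isCompact_Icc.of_isClosed_subset hAc inter_subset_left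
  have hAne : A.Nonempty := ⟨1, ⟨zero_le_one, le_rfl⟩, by rw [mem_preimage, hγ1]; exact hp⟩
  set T := sInf A with hT
  have hTA : T ∈ A := hAcomp.sInf_mem hAne
  have hT0 : 0 < T := by
    rcases eq_or_lt_of_le hTA.1.1 with h | h
    · exfalso
      apply hxK
      have := hTA.2
      rw [← h, mem_preimage, hγ0] at this
      exact this
    · exact h
  have hTout : ∀ t, 0 ≤ t → t < T → γ t ∉ K := by
    intro t ht0 htT hmem
    have : T ≤ t := csInf_le hAcomp.bddBelow ⟨⟨ht0, (htT.trans_le hTA.1.2).le⟩, hmem⟩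
    linarith
  -- convex independence along the way
  have hci : ∀ t, 0 ≤ t → t < T → ConvexIndependent ℝ (ext c (γ t)) := by
    intro t ht0 htT
    have ht1 : t < 1 := htT.trans_le hTA.1.2
    rw [convexIndependent_iff]
    intro o
    rcases o with _ | j
    · rw [image_ext_ne_none, ext_none]
      exact hTout t ht0 htT
    · rw [image_ext_ne_some, ext_some]
      obtain ⟨f, hf⟩ := vertex_functional hc (some j)
      have hfx : f (c j) < f x := hf none (by simp)
      have hfl : ∀ l, l ≠ j → f (c j) < f (c l) := fun l hl =>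
        hf (some l) (fun h => hl (Option.some.inj h))
      have hfp : f (c j) ≤ f p := by
        have hsub : range c ⊆ {z | f (c j) ≤ f z} := by
          rintro _ ⟨l, rfl⟩
          by_cases hl : l = j
          · subst hl; exact (le_refl (f (c l)) :)
          · exact (hfl l hl).le
        exact convexHull_min hsub (convex_halfSpace_ge f.toLinearMap.isLinear _) hp
      have hfγ : f (c j) < f (γ t) := by
        have e : γ t = (1 - t) • x + t • p := AffineMap.lineMap_apply_module x p t
        rw [e, map_add, map_smul, map_smul, smul_eq_mul, smul_eq_mul]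
        have h1 : f (c j) = (1 - t) * f (c j) + t * f (c j) := by ring
        rw [h1]
        have h2 : (1 - t) * f (c j) < (1 - t) * f x := mul_lt_mul_of_pos_left hfx (by linarith)
        have h3 : t * f (c j) ≤ t * f p := mul_le_mul_of_nonneg_left hfp ht0
        linarith
      intro hmem
      have hsub : insert (γ t) (c '' {l | l ≠ j}) ⊆ {z | f (c j) < f z} := by
        rintro z (rfl | ⟨l, hl, rfl⟩)
        · exact hfγ
        · exact hfl l hl
      have h4 : f (c j) < f (c j) :=
        convexHull_min hsub (convex_halfSpace_gt f.toLinearMap.isLinear _) hmem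
      exact lt_irrefl _ h4
  have hVge : ∀ t, V (range c) ≤ V (range (ext c (γ t))) := by
    intro t
    rw [range_ext]
    exact V_mono ((finite_range c).insert _) (subset_insert _ _)
  -- slide
  have hslide : ∀ t, 0 ≤ t → t < T →
      Eqv a b (insert x (range c)) (insert (γ t) (range c)) := by
    intro t ht0 htT
    have hS : IsPreconnected ((fun t : ℝ => ext c (γ t)) '' (Ico 0 T)) :=
      isPreconnected_Ico.image _ ((continuous_ext c).comp hγc).continuousOn
    have := eqv_of_preconnected hdim ha.le hab hS (c := ext c (γ 0)) (c' := ext c (γ t)) (by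
      rintro _ ⟨u, hu, rfl⟩
      exact ⟨hci u hu.1 hu.2, lt_of_lt_of_le hV (hVge u)⟩) ⟨0, ⟨le_rfl, hT0⟩, rfl⟩
      ⟨t, ⟨ht0, htT⟩, rfl⟩
    rwa [range_ext, range_ext, hγ0] at this
  -- near the entrance the volume is small
  have hVT : V (range (ext c (γ T))) = V (range c) := by
    have h1 : γ T ∈ K := hTA.2
    unfold V
    rw [range_ext]
    congr 2
    apply Subset.antisymm
    · apply convexHull_min _ (convex_convexHull ℝ _)
      rintro z (rfl | hz)
      · exact h1
      · exact subset_convexHull ℝ _ hz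
    · exact convexHull_mono (subset_insert _ _)
  have hnear : ∀ᶠ t in 𝓝 T, V (range (ext c (γ t))) < b / a * V (range c) := by
    have hcont : Continuous (fun t : ℝ => ext c (γ t)) := (continuous_ext c).comp hγc
    have h1 : IsOpen {t : ℝ | V (range (ext c (γ t))) < b / a * V (range c)} :=
      (isOpen_V_lt (E := E) (ι := Option ι) _).preimage hcont
    apply h1.mem_nhds
    show V (range (ext c (γ T))) < b / a * V (range c)
    rw [hVT]
    have h2 : 1 < b / a := by rw [one_lt_div ha]; exact hab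
    nlinarith
  rw [Metric.eventually_nhds_iff] at hnear
  obtain ⟨ε, hε, hnear⟩ := hnear
  set t := max 0 (T - ε / 2) with ht
  have ht0 : 0 ≤ t := le_max_left _ _
  have htT : t < T := by
    rw [ht]
    exact max_lt hT0 (by linarith)
  have htnear : dist t T < ε := by
    rw [Real.dist_eq, abs_sub_comm, abs_of_pos (by linarith)]
    have : T - ε / 2 ≤ t := le_max_right _ _
    linarith
  have h1 := hnear htnear
  have h2 : Eqv a b (range c) (insert (γ t) (range c)) := by
    apply eqv_insert_small hdim ha hab (hci t ht0 htT) hcc hV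
    rw [range_ext] at h1
    calc a * V (insert (γ t) (range c)) < a * (b / a * V (range c)) :=
          mul_lt_mul_of_pos_left h1 ha
      _ = b * V (range c) := by field_simp
  have h3 := hslide t ht0 htT
  have hVt : 0 < V (insert (γ t) (range c)) := by
    rw [← range_ext]
    exact lt_of_lt_of_le hV (hVge t)
  exact Eqv.trans hdim ha.le hab hVt h2 h3.symm

end

end Pool.Agent.Lib.MP_208a82_co
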