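import Mathlib
import Pool.Agent.Lib.MP_208a82_co.Eqv

set_option autoImplicit false
set_option linter.unusedSectionVars false

namespace Pool.Agent.Lib.MP_208a82_co

open MeasureTheory Set Metric Filter Topology
open scoped Pointwise

section

variable {E : Type} [NormedAddCommGroup E] [NormedSpace ℝ E] [FiniteDimensional ℝ E]
  [MeasureSpace E] [BorelSpace E] [(volume : Measure E).IsAddHaarMeasure]
variable {ι : Type} [Fintype ι]

lemma eqv_insert (hdim : 2 ≤ Module.finrank ℝ E) {a b : ℝ} (ha : 0 < a) (hab : a < b)
    {s : Set E} (hs : s.Finite) {x : E} (hci : CI (insert x s)) (hx : x ∉ s) (hV : 0 < V s) :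
    Eqv a b s (insert x s) := by
  classical
  have : Fintype s := hs.fintype
  let c : s → E := Subtype.val
  have hr : range c = s := Subtype.range_coe
  have hcc : ConvexIndependent ℝ c := hci.mono (subset_insert x s)
  have hinj : Function.Injective (ext c x) := by
    intro o o' h
    rcases o with _ | j <;> rcases o' with _ | j'
    · rfl
    · exfalso; apply hx; rw [ext_none, ext_some] at h; rw [h]; exact j'.2
    · exfalso; apply hx; rw [ext_none, ext_some] at h; rw [← h]; exact j.2
    · rw [ext_some, ext_some] at h
      exact congrArg some (Subtype.ext h)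
  have hc : ConvexIndependent ℝ (ext c x) := by
    rw [← hinj.convexIndependent_iff_set, range_ext, hr]
    exact hci
  have := eqv_insert_config hdim ha hab hc hcc (by rw [hr]; exact hV)
  rwa [hr] at this

lemma eqv_refl (hdim : 2 ≤ Module.finrank ℝ E) {a b : ℝ} (ha : 0 ≤ a)
    {s : Set E} (hs : s.Finite) (hci : CI s) : Eqv a b s s := by
  have : Fintype s := hs.fintype
  have h := Eqv.refl_config hdim ha (a := a) (b := b) (c := ((↑) : s → E)) hci
  rwa [Subtype.range_coe] at h

lemma eqv_of_subset (hdim : 2 ≤ Module.finrank ℝ E) {a b : ℝ} (ha : 0 < a) (hab : a < b)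
    {s t : Set E} (hs : s.Finite) (hci : CI s) (hts : t ⊆ s) (hV : 0 < V t) : Eqv a b t s := by
  classical
  have htf : t.Finite := hs.subset hts
  have key : ∀ D : Finset E, t ∪ D ⊆ s → Eqv a b t (t ∪ D) := by
    intro D
    induction D using Finset.induction_on with
    | empty =>
      intro _
      rw [Finset.coe_empty, union_empty]
      exact eqv_refl hdim ha.le htf (hci.mono hts)
    | insert x D _ ih =>
      intro hsub
      have hsub' : t ∪ (D : Set E) ⊆ s := by
        refine Subset.trans ?_ hsub
        rw [Finset.coe_insert]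
        exact union_subset_union_right _ (subset_insert _ _)
      have h1 := ih hsub'
      have hset : t ∪ ((insert x D : Finset E) : Set E) = insert x (t ∪ D) := by
        rw [Finset.coe_insert, union_insert]
      rw [hset] at hsub ⊢
      by_cases hx : x ∈ t ∪ (D : Set E)
      · rwa [insert_eq_of_mem hx]
      · have hfin : (t ∪ (D : Set E)).Finite := hs.subset hsub'
        have hVpos : 0 < V (t ∪ (D : Set E)) :=
          lt_of_lt_of_le hV (V_mono hfin subset_union_left)
        exact Eqv.trans hdim ha.le hab hVpos h1
          (eqv_insert hdim ha hab hfin (hci.mono hsub) hx hVpos)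
  have hfin : (s \ t).Finite := hs.subset sdiff_subset
  have := key hfin.toFinset (by
    rw [Finite.coe_toFinset, union_sdiff_cancel hts])
  rwa [Finite.coe_toFinset, union_sdiff_cancel hts] at this

lemma V_basis_pos (b : AffineBasis ι ℝ E) : 0 < V (range b) := by
  apply V_pos (finite_range b)
  rw [interior_convexHull_nonempty_iff_affineSpan_eq_top]
  exact b.tot

omit [MeasureSpace E] [BorelSpace E] [(volume : Measure E).IsAddHaarMeasure] [FiniteDimensional ℝ E] in
lemma convex_coord_lt (b : AffineBasis ι ℝ E) (j : ι) (u : ℝ) : Convex ℝ {z | b.coord j z < u} :=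
  (convex_Iio u).affine_preimage (b.coord j)

omit [MeasureSpace E] [BorelSpace E] [(volume : Measure E).IsAddHaarMeasure] [FiniteDimensional ℝ E] in
lemma convex_coord_ge (b : AffineBasis ι ℝ E) (j : ι) (u : ℝ) : Convex ℝ {z | u ≤ b.coord j z} :=
  (convex_Ici u).affine_preimage (b.coord j)

omit [MeasureSpace E] [BorelSpace E] [(volume : Measure E).IsAddHaarMeasure] [FiniteDimensional ℝ E] in
lemma CI_basis (b : AffineBasis ι ℝ E) : ConvexIndependent ℝ b := by
  rw [convexIndependent_iff]
  intro j hmem
  have hsub : b '' {l | l ≠ j} ⊆ {z | b.coord j z < 1} := by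
    rintro _ ⟨l, hl, rfl⟩
    show b.coord j (b l) < 1
    rw [b.coord_apply_ne (Ne.symm hl)]
    exact one_pos
  have h1 : b.coord j (b j) < 1 := convexHull_min hsub (convex_coord_lt b j 1) hmem
  rw [b.coord_apply_eq] at h1
  exact lt_irrefl _ h1

omit [MeasureSpace E] [BorelSpace E] [(volume : Measure E).IsAddHaarMeasure] [FiniteDimensional ℝ E] in
lemma CI_bipyramid (b : AffineBasis ι ℝ E) (i : ι) (y : E) (h1 : b.coord i y < 0)
    (h2 : ∀ j, b.coord j y < 1) : ConvexIndependent ℝ (ext b y) := by
  classical
  rw [convexIndependent_iff]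
  intro o
  rcases o with _ | j
  · rw [image_ext_ne_none, ext_none]
    intro hmem
    have hsub : range b ⊆ {z | 0 ≤ b.coord i z} := by
      rintro _ ⟨l, rfl⟩
      show 0 ≤ b.coord i (b l)
      rw [b.coord_apply]
      split_ifs <;> norm_num
    have h3 : 0 ≤ b.coord i y := convexHull_min hsub (convex_coord_ge b i 0) hmem
    linarith
  · rw [image_ext_ne_some, ext_some]
    intro hmem
    have hsub : insert y (b '' {l | l ≠ j}) ⊆ {z | b.coord j z < 1} := by
      rintro z (rfl | ⟨l, hl, rfl⟩)
      · exact h2 j
      · show b.coord j (b l) < 1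
        rw [b.coord_apply_ne (Ne.symm hl)]
        exact one_pos
    have h3 : b.coord j (b j) < 1 := convexHull_min hsub (convex_coord_lt b j 1) hmem
    rw [b.coord_apply_eq] at h3
    exact lt_irrefl _ h3

omit [MeasureSpace E] [BorelSpace E] [(volume : Measure E).IsAddHaarMeasure] [FiniteDimensional ℝ E] [Fintype ι] in
lemma coord_span_zero (b : AffineBasis ι ℝ E) (i : ι) (S : Set E) (hS : ∀ z ∈ S, b.coord i z = 0)
    (z : E) (hz : z ∈ affineSpan ℝ S) : b.coord i z = 0 := by
  have h5 : affineSpan ℝ S ≤ AffineSubspace.comap (b.coord i) (affineSpan ℝ {(0 : ℝ)}) := by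
    rw [affineSpan_le]
    intro y hy
    simp only [AffineSubspace.coe_comap, Set.mem_preimage,
      AffineSubspace.coe_affineSpan_singleton, Set.mem_singleton_iff]
    exact hS y hy
  have h6 := h5 hz
  simpa using h6

omit [MeasureSpace E] [BorelSpace E] [(volume : Measure E).IsAddHaarMeasure] in
/-- replace one vertex of an affine basis -/
lemma exists_update [DecidableEq ι] (b : AffineBasis ι ℝ E) (i : ι) (x : E) (hx : b.coord i x ≠ 0) :
    ∃ b' : AffineBasis ι ℝ E, (b' : ι → E) = Function.update b i x := by
  have hind : AffineIndependent ℝ (Function.update b i x) := by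
    apply AffineIndependent.affineIndependent_of_notMem_span (i := i)
    · have h4 := b.ind.comp_embedding (Function.Embedding.subtype (fun y => y ≠ i))
      have h5 : (fun y : {y // y ≠ i} => Function.update b i x y) =
          b ∘ (Function.Embedding.subtype (fun y => y ≠ i)) := by
        funext y
        simp only [Function.update_of_ne y.2, Function.comp]
        rfl
      rw [h5]
      exact h4
    · rw [Function.update_self]
      intro hmem
      apply hx
      have h6 : Function.update b i x '' {y | y ≠ i} = b '' {y | y ≠ i} := by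
        apply image_congr
        intro j hj
        exact Function.update_of_ne hj _ _
      rw [h6] at hmem
      apply coord_span_zero b i _ _ x hmem
      rintro _ ⟨l, hl, rfl⟩
      exact b.coord_apply_ne (Ne.symm hl)
  have htot : affineSpan ℝ (range (Function.update b i x)) = ⊤ := by
    rw [hind.affineSpan_eq_top_iff_card_eq_finrank_add_one]
    exact b.card_eq_finrank_add_one
  exact ⟨⟨Function.update b i x, hind, htot⟩, rfl⟩

omit [MeasureSpace E] [BorelSpace E] [(volume : Measure E).IsAddHaarMeasure] [FiniteDimensional ℝ E] in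
/-- coordinates after replacing a vertex -/
lemma coord_update [DecidableEq ι] (b b' : AffineBasis ι ℝ E) (i : ι) (x : E)
    (hb' : (b' : ι → E) = Function.update b i x) (z : E) :
    b.coord i z = b.coord i x * b'.coord i z := by
  have h1 := b'.affineCombination_coord_eq_self z
  have h2 : b.coord i z = ∑ j, b'.coord j z * b.coord i (b' j) := by
    conv_lhs => rw [← h1]
    rw [Finset.map_affineCombination _ _ _ (b'.sum_coord_apply_eq_one z)]
    rw [Finset.affineCombination_eq_linear_combination _ _ _ (b'.sum_coord_apply_eq_one z)]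
    rfl
  rw [h2, Finset.sum_eq_single i]
  · rw [hb', Function.update_self, mul_comm]
  · intro j _ hj
    rw [hb', Function.update_of_ne hj, b.coord_apply_ne (Ne.symm hj), mul_zero]
  · intro h
    exact absurd (Finset.mem_univ i) h

/-- the tip move -/
lemma eqv_tip [DecidableEq ι] (hdim : 2 ≤ Module.finrank ℝ E) {u v : ℝ} (hu : 0 < u) (huv : u < v)
    (b b' : AffineBasis ι ℝ E) (i : ι) (y : E) (hb' : (b' : ι → E) = Function.update b i y)
    (h1 : b.coord i y < 0) (h2 : ∀ j, b.coord j y < 1) :
    Eqv u v (range b) (range b') := by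
  have hc := CI_bipyramid b i y h1 h2
  have e1 : Eqv u v (range b) (insert y (range b)) :=
    eqv_insert_config hdim hu huv hc (CI_basis b) (V_basis_pos b)
  have hset : insert y (range b) = insert (b i) (range b') := by
    rw [range_eq_insert b i, range_eq_insert b' i, hb', Function.update_self]
    have : Function.update b i y '' {j | j ≠ i} = b '' {j | j ≠ i} := by
      apply image_congr
      intro j hj
      exact Function.update_of_ne hj _ _
    rw [this, insert_comm]
  have hx : b i ∉ range b' := by
    rintro ⟨l, hl⟩
    rw [hb'] at hl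
    by_cases hli : l = i
    · subst hli
      rw [Function.update_self] at hl
      rw [hl, b.coord_apply_eq] at h1
      linarith
    · rw [Function.update_of_ne hli] at hl
      exact hli (b.ind.injective hl)
  have hci : CI (insert (b i) (range b')) := by
    rw [← hset]
    exact CI_insert_of_ext hc
  have e2 := eqv_insert hdim hu huv (finite_range b') hci hx (V_basis_pos b')
  rw [← hset] at e2
  have hVpos : 0 < V (insert y (range b)) :=
    lt_of_lt_of_le (V_basis_pos b) (V_mono ((finite_range b).insert y) (subset_insert _ _))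
  exact Eqv.trans hdim hu.le huv hVpos e1 e2.symm

omit [MeasureSpace E] [BorelSpace E] [(volume : Measure E).IsAddHaarMeasure] in
/-- a point just beyond the facet opposite to vertex `i` -/
lemma exists_tip [DecidableEq ι] (hdim : 2 ≤ Module.finrank ℝ E) (b b' : AffineBasis ι ℝ E) (i : ι)
    (hbb : ∀ j, j ≠ i → b' j = b j) (hpos : 0 < b'.coord i (b i)) :
    ∃ y : E, (b.coord i y < 0 ∧ ∀ j, b.coord j y < 1) ∧ (b'.coord i y < 0 ∧ ∀ j, b'.coord j y < 1) := by
  have hcard : Fintype.card ι = Module.finrank ℝ E + 1 := b.card_eq_finrank_add_one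
  set s : Finset ι := Finset.univ.erase i with hs
  have hscard : s.card = Module.finrank ℝ E := by
    rw [hs, Finset.card_erase_of_mem (Finset.mem_univ i), Finset.card_univ, hcard]; omega
  have hsne : s.Nonempty := by rw [← Finset.card_pos]; omega
  set q := s.centroid ℝ b with hq
  have hq' : q = s.centroid ℝ b' := by
    rw [hq, Finset.centroid_def, Finset.centroid_def]
    apply Finset.affineCombination_congr _ (fun _ _ => rfl)
    intro j hj
    exact (hbb j (Finset.ne_of_mem_erase hj)).symm
  have hcq : ∀ (β : AffineBasis ι ℝ E), q = s.centroid ℝ β →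
      (∀ j, β.coord j q < 1) ∧ β.coord i q = 0 := by
    intro β hβ
    have hi : β.coord i q = 0 := by
      rw [hβ, Finset.centroid_def]
      apply β.coord_apply_combination_of_notMem (Finset.notMem_erase i _)
      exact s.sum_centroidWeights_eq_one_of_nonempty ℝ hsne
    refine ⟨fun j => ?_, hi⟩
    by_cases hj : j = i
    · subst hj; rw [hi]; exact one_pos
    · rw [hβ, β.coord_apply_centroid (Finset.mem_erase.mpr ⟨hj, Finset.mem_univ j⟩), hscard]
      apply inv_lt_one_of_one_lt₀
      exact_mod_cast (by omega : 1 < Module.finrank ℝ E)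
  -- the ray
  let y : ℝ → E := fun ε => AffineMap.lineMap q (b i) (-ε)
  have hg : ∀ (g : E →ᵃ[ℝ] ℝ) (ε : ℝ), g (y ε) = g q - ε * (g (b i) - g q) := by
    intro g ε
    simp only [y]
    rw [AffineMap.apply_lineMap, AffineMap.lineMap_apply]
    simp only [vsub_eq_sub, smul_eq_mul, vadd_eq_add]
    ring
  have hev : ∀ (β : AffineBasis ι ℝ E), q = s.centroid ℝ β →
      ∀ᶠ ε in 𝓝[>] (0 : ℝ), ∀ j, β.coord j (y ε) < 1 := by
    intro β hβ
    rw [eventually_all]
    intro j
    apply Filter.Eventually.filter_mono nhdsWithin_le_nhds
    have hc : Continuous (fun ε : ℝ => β.coord j (y ε)) := by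
      simp_rw [hg]
      fun_prop
    have h0 : β.coord j (y 0) < 1 := by
      rw [hg]; simpa using (hcq β hβ).1 j
    exact hc.continuousAt.eventually_lt_const h0
  obtain ⟨ε, ⟨h1, h2⟩, hε⟩ := ((hev b hq).and (hev b' hq')).and self_mem_nhdsWithin |>.exists
  have hε' : 0 < ε := hε
  refine ⟨y ε, ⟨?_, h1⟩, ⟨?_, h2⟩⟩
  · rw [hg, (hcq b hq).2, b.coord_apply_eq]
    linarith
  · rw [hg, (hcq b' hq').2]
    nlinarith

/-- Replacement of a vertex of a simplex. -/
lemma eqv_update [DecidableEq ι] (hdim : 2 ≤ Module.finrank ℝ E) {u v : ℝ} (hu : 0 < u) (huv : u < v)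
    (b b' : AffineBasis ι ℝ E) (i : ι) (x : E) (hb' : (b' : ι → E) = Function.update b i x) :
    Eqv u v (range b) (range b') := by
  -- same side
  have same : ∀ (b b' : AffineBasis ι ℝ E) (x : E), (b' : ι → E) = Function.update b i x →
      0 < b.coord i x → Eqv u v (range b) (range b') := by
    intro b b' x hb' hpos
    have hbb : ∀ j, j ≠ i → b' j = b j := by
      intro j hj; rw [hb', Function.update_of_ne hj]
    have h1 : 0 < b'.coord i (b i) := by
      have := coord_update b b' i x hb' (b i)
      rw [b.coord_apply_eq] at this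
      by_contra hcon
      push Not at hcon
      nlinarith
    obtain ⟨y, ⟨h2, h3⟩, ⟨h4, h5⟩⟩ := exists_tip hdim b b' i hbb h1
    obtain ⟨b2, hb2⟩ := exists_update b i y h2.ne
    have hb2' : (b2 : ι → E) = Function.update b' i y := by
      rw [hb2, hb', Function.update_idem]
    have e1 := eqv_tip hdim hu huv b b2 i y hb2 h2 h3
    have e2 := eqv_tip hdim hu huv b' b2 i y hb2' h4 h5
    exact Eqv.trans hdim hu.le huv (V_basis_pos b2) e1 e2.symm
  have hx : b.coord i x ≠ 0 := by
    have h1 := coord_update b b' i x hb' (b i)
    rw [b.coord_apply_eq] at h1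
    intro h0
    rw [h0, zero_mul] at h1
    exact one_ne_zero h1
  rcases lt_or_gt_of_ne hx with hneg | hpos
  · obtain ⟨y, ⟨h2, h3⟩, -⟩ := exists_tip hdim b b i (fun _ _ => rfl) (by
      rw [b.coord_apply_eq]; exact one_pos)
    obtain ⟨b1, hb1⟩ := exists_update b i y h2.ne
    have e1 := eqv_tip hdim hu huv b b1 i y hb1 h2 h3
    have hb1' : (b' : ι → E) = Function.update b1 i x := by
      rw [hb', hb1, Function.update_idem]
    have hpos1 : 0 < b1.coord i x := by
      have := coord_update b b1 i y hb1 x
      by_contra hcon
      push Not at hcon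
      nlinarith
    have e2 := same b1 b' x hb1' hpos1
    exact Eqv.trans hdim hu.le huv (V_basis_pos b1) e1 e2
  · exact same b b' x hb' hpos

open scoped Classical in
/-- Any two simplices are equivalent. -/
lemma eqv_basis (hdim : 2 ≤ Module.finrank ℝ E) {u v : ℝ} (hu : 0 < u) (huv : u < v)
    (b' : AffineBasis ι ℝ E) (m : ℕ) : ∀ b : AffineBasis ι ℝ E,
    (Finset.univ.filter (fun j => b j ∉ range b')).card = m → Eqv u v (range b) (range b') := by
  classical
  induction m using Nat.strong_induction_on with
  | _ m ih =>
    intro b hm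
    by_cases h0 : m = 0
    · rw [h0, Finset.card_eq_zero, Finset.filter_eq_empty_iff] at hm
      have hsub : range b ⊆ range b' := by
        rintro _ ⟨j, rfl⟩
        have := hm (Finset.mem_univ j)
        push Not at this
        exact this
      have heq : range b = range b' := by
        apply eq_of_subset_of_ncard_le hsub _ (finite_range b')
        rw [← Set.image_univ, ← Set.image_univ, ncard_image_of_injective _ b.ind.injective,
          ncard_image_of_injective _ b'.ind.injective]
      rw [heq]
      exact Eqv.refl_config hdim hu.le (CI_basis b')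
    · have hne : (Finset.univ.filter (fun j => b j ∉ range b')).Nonempty := by
        rw [← Finset.card_pos]; omega
      obtain ⟨i, hi⟩ := hne
      have hi' := (Finset.mem_filter.mp hi).2
      obtain ⟨k, hk⟩ : ∃ k, b.coord i (b' k) ≠ 0 := by
        by_contra hcon
        push Not at hcon
        have h1 : b.coord i (b i) = 0 := by
          apply coord_span_zero b i (range b')
          · rintro _ ⟨k, rfl⟩
            exact hcon k
          · rw [b'.tot]; trivial
        rw [b.coord_apply_eq] at h1
        exact one_ne_zero h1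
      obtain ⟨b1, hb1⟩ := exists_update b i (b' k) hk
      have e1 := eqv_update hdim hu huv b b1 i (b' k) hb1
      have hlt : (Finset.univ.filter (fun j => b1 j ∉ range b')).card < m := by
        rw [← hm]
        apply Finset.card_lt_card
        rw [Finset.ssubset_iff_of_subset]
        · refine ⟨i, hi, ?_⟩
          simp only [Finset.mem_filter, Finset.mem_univ, true_and, not_not]
          rw [hb1, Function.update_self]
          exact mem_range_self k
        · intro j hj
          simp only [Finset.mem_filter, Finset.mem_univ, true_and] at hj ⊢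
          by_cases hji : j = i
          · subst hji; exact hi'
          · rwa [hb1, Function.update_of_ne hji] at hj
      have e2 := ih _ hlt b1 rfl
      exact Eqv.trans hdim hu.le huv (V_basis_pos b1) e1 e2

/-- every full-dimensional finite set contains the vertices of a simplex -/
lemma exists_simplex {s : Set E} (hs : s.Finite) (hV : 0 < V s) :
    ∃ b : AffineBasis (Fin (Module.finrank ℝ E + 1)) ℝ E, range b ⊆ s := by
  classical
  have htop : affineSpan ℝ s = ⊤ := by
    rw [← interior_convexHull_nonempty_iff_affineSpan_eq_top]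
    exact interior_of_V_pos hV
  obtain ⟨t, hts, b, hb⟩ := AffineBasis.exists_affine_subbasis htop
  have htf : t.Finite := hs.subset hts
  have : Fintype t := htf.fintype
  have hcard : Fintype.card t = Module.finrank ℝ E + 1 := b.card_eq_finrank_add_one
  let e : t ≃ Fin (Module.finrank ℝ E + 1) := Fintype.equivFinOfCardEq hcard
  refine ⟨b.reindex e, ?_⟩
  rintro _ ⟨j, rfl⟩
  rw [AffineBasis.reindex_apply, hb]
  exact hts (e.symm j).2

/-- Any two polytopes are equivalent. -/
theorem eqv_all (hdim : 2 ≤ Module.finrank ℝ E) {u v : ℝ} (hu : 0 < u) (huv : u < v)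
    {s t : Set E} (hs : s.Finite) (ht : t.Finite) (hcs : CI s) (hct : CI t)
    (hVs : 0 < V s) (hVt : 0 < V t) : Eqv u v s t := by
  obtain ⟨b, hb⟩ := exists_simplex hs hVs
  obtain ⟨b', hb'⟩ := exists_simplex ht hVt
  have e1 := eqv_of_subset hdim hu huv hs hcs hb (V_basis_pos b)
  have e2 := eqv_basis hdim hu huv b' _ b rfl
  have e3 := eqv_of_subset hdim hu huv ht hct hb' (V_basis_pos b')
  exact Eqv.trans hdim hu.le huv (V_basis_pos b) e1.symm
    (Eqv.trans hdim hu.le huv (V_basis_pos b') e2 e3)

end

end Pool.Agent.Lib.MP_208a82_co
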