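import Mathlib
import Pool.Agent.Lib.MP_208a82_co.Simplex

set_option autoImplicit false
set_option linter.unusedSectionVars false

namespace Pool.Agent.Lib.MP_208a82_co

open MeasureTheory Set Metric Filter Topology
open scoped Pointwise

section

variable {E : Type} [NormedAddCommGroup E] [NormedSpace ℝ E] [FiniteDimensional ℝ E]
  [MeasureSpace E] [BorelSpace E] [(volume : Measure E).IsAddHaarMeasure]

/-- adding an outside point strictly increases the volume -/
lemma V_lt_insert {s : Set E} (hs : s.Finite) (hV : 0 < V s) {x : E} (hx : x ∉ convexHull ℝ s) :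
    V s < V (insert x s) := by
  obtain ⟨o, ho⟩ := interior_of_V_pos hV
  have hK : IsClosed (convexHull ℝ s) := hs.isClosed_convexHull ℝ
  set K := convexHull ℝ s with hKdef
  set Q := convexHull ℝ (insert x s) with hQ
  have hKQ : K ⊆ Q := convexHull_mono (subset_insert x s)
  have hoQ : o ∈ interior Q := interior_mono hKQ ho
  have hxQ : x ∈ Q := subset_convexHull ℝ _ (mem_insert x s)
  have hQc : Convex ℝ Q := convex_convexHull ℝ _
  -- point z near x in the interior of Q, outside K
  have hcont : Continuous (fun t : ℝ => AffineMap.lineMap x o t) := AffineMap.lineMap_continuous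
  have h0 : ∀ᶠ t in 𝓝[>] (0 : ℝ), AffineMap.lineMap x o t ∈ Kᶜ := by
    apply Filter.Eventually.filter_mono nhdsWithin_le_nhds
    apply hcont.continuousAt.eventually_mem
    rw [AffineMap.lineMap_apply_zero]
    exact hK.isOpen_compl.mem_nhds hx
  have h1 : ∀ᶠ t in 𝓝[>] (0 : ℝ), t < 1 :=
    Filter.Eventually.filter_mono nhdsWithin_le_nhds (Iio_mem_nhds one_pos)
  obtain ⟨t, ⟨ht1, ht2⟩, ht0⟩ := (h0.and h1).and self_mem_nhdsWithin |>.exists
  have ht0' : 0 < t := ht0
  have hz : AffineMap.lineMap x o t ∈ interior Q := by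
    apply hQc.openSegment_self_interior_subset_interior hxQ hoQ
    rw [openSegment_eq_image_lineMap]
    exact ⟨t, ⟨ht0', ht2⟩, rfl⟩
  have hne : (interior Q \ K).Nonempty := ⟨_, hz, ht1⟩
  have hopen : IsOpen (interior Q \ K) := isOpen_interior.sdiff hK
  have hpos : 0 < volume (interior Q \ K) := hopen.measure_pos _ hne
  have hfinK : volume K ≠ ⊤ := vol_ne_top hs
  have hfinQ : volume Q ≠ ⊤ := vol_ne_top (hs.insert x)
  have hle : volume K + volume (interior Q \ K) ≤ volume Q := by
    rw [← measure_union disjoint_sdiff_right hopen.measurableSet]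
    apply measure_mono
    apply union_subset hKQ
    exact sdiff_subset.trans interior_subset
  unfold V
  rw [ENNReal.toReal_lt_toReal hfinK hfinQ]
  exact lt_of_lt_of_le (ENNReal.lt_add_right hfinK hpos.ne') hle

/-- every polytope has an insertion adding little volume -/
lemma exists_small_insert (hdim : 2 ≤ Module.finrank ℝ E) {s : Set E} (hs : s.Finite) (hci : CI s)
    (hV : 0 < V s) {v : ℝ} (hv : V s < v) :
    ∃ x : E, CI (insert x s) ∧ V s < V (insert x s) ∧ V (insert x s) < v := by
  classical
  have : Fintype s := hs.fintype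
  let c : s → E := Subtype.val
  have hr : range c = s := Subtype.range_coe
  have hc : ConvexIndependent ℝ c := hci
  have hne : s.Nonempty := by
    rw [nonempty_iff_ne_empty]
    rintro rfl
    simp [V] at hV
  obtain ⟨x0, hx0⟩ := hne
  let i : s := ⟨x0, hx0⟩
  obtain ⟨f, hf⟩ := vertex_functional hc i
  obtain ⟨h, hh, hfh⟩ := exists_ker hdim f
  have e1 := eventually_CI_ext hc i f hf h hh hfh
  have hcont : Continuous (fun t : ℝ => ext c (c i + t • h)) :=
    (continuous_ext c).comp (by fun_prop)
  have e2 : ∀ᶠ t in 𝓝[≠] (0 : ℝ), V (range (ext c (c i + t • h))) < v := by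
    apply Filter.Eventually.filter_mono nhdsWithin_le_nhds
    have h1 : IsOpen {t : ℝ | V (range (ext c (c i + t • h))) < v} :=
      (isOpen_V_lt (E := E) (ι := Option s) v).preimage hcont
    apply h1.mem_nhds
    show V (range (ext c (c i + (0 : ℝ) • h))) < v
    rw [zero_smul, add_zero, range_ext, insert_eq_of_mem (mem_range_self i), hr]
    exact hv
  obtain ⟨t, ht1, ht2⟩ := (e1.and e2).exists
  set y := c i + t • h
  rw [range_ext, hr] at ht2
  refine ⟨y, ?_, ?_, ht2⟩
  · have := CI_insert_of_ext ht1
    rwa [hr] at this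
  · apply V_lt_insert hs hV
    have := (convexIndependent_iff.mp ht1) none
    rw [image_ext_ne_none, ext_none, hr] at this
    exact this

omit [FiniteDimensional ℝ E] [BorelSpace E] [(volume : Measure E).IsAddHaarMeasure] in
lemma Link.mono {I J : Set ℝ} (hIJ : I ⊆ J) {P Q : Set E} (h : Link I P Q) : Link J P Q := by
  obtain ⟨hP, hQ, h1, h2, h3⟩ := h
  refine ⟨hP, hQ, hIJ h1, hIJ h2, ?_⟩
  have hle : window (E := E) I ≤ window J := fun R hR => hIJ hR
  exact h3.map (SimpleGraph.induceHomOfLE (Gamma E) hle).toHom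

/-- The positive part. -/
lemma link_all (hdim : 2 ≤ Module.finrank ℝ E) {I : Set ℝ} (hI : I ⊆ Ioi 0) (hoc : I.OrdConnected)
    (hng : ¬ ∃ b, IsGreatest I b) {P Q : Set E} (hP : IsPolytope P) (hQ : IsPolytope Q)
    (h1 : (volume P).toReal ∈ I) (h2 : (volume Q).toReal ∈ I) : Link I P Q := by
  have hex : ∀ v ∈ I, ∃ w ∈ I, v < w := by
    intro v hv
    by_contra hcon
    push Not at hcon
    exact hng ⟨v, hv, fun w hw => hcon w hw⟩
  -- step away from the minimum
  have hstep : ∀ P : Set E, IsPolytope P → (volume P).toReal ∈ I →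
      ∃ s : Set E, s.Finite ∧ CI s ∧ (volume P).toReal < V s ∧ V s ∈ I ∧
        Link I P (convexHull ℝ s) := by
    intro P hP hPI
    obtain ⟨⟨s0, hs0, rfl⟩, hint⟩ := hP
    set s := (convexHull ℝ s0).extremePoints ℝ with hs
    have hsf : s.Finite := hs0.subset extremePoints_convexHull_subset
    have hsci : CI s := extreme_CI (convex_convexHull ℝ s0)
    have hhull : convexHull ℝ s = convexHull ℝ s0 := hull_extreme hs0
    have hVs : V s = (volume (convexHull ℝ s0)).toReal := by
      unfold V; rw [hhull]
    obtain ⟨w, hw, hlt⟩ := hex _ hPI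
    have hVpos : 0 < V s := by rw [hVs]; exact hI hPI
    obtain ⟨x, hx1, hx2, hx3⟩ := exists_small_insert hdim hsf hsci hVpos (v := w) (by rw [hVs]; exact hlt)
    have hmem : V (insert x s) ∈ I := by
      apply hoc.out hPI hw
      rw [← hVs]
      exact ⟨hx2.le, hx3.le⟩
    refine ⟨insert x s, hsf.insert x, hx1, by rw [← hVs]; exact hx2, hmem, ?_⟩
    have hl := link_insert (I := I) hsf x hx1 (by rw [hhull]; exact hint) (by rw [hVs]; exact hPI) hmem
    rwa [hhull] at hl
  obtain ⟨s, hs, hsci, hPs, hVs, hl1⟩ := hstep P hP h1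
  obtain ⟨t, ht, htci, hQt, hVt, hl2⟩ := hstep Q hQ h2
  -- window
  set a := min (volume P).toReal (volume Q).toReal with ha
  have haI : a ∈ I := by
    rcases min_choice (volume P).toReal (volume Q).toReal with h | h
    · rw [ha, h]; exact h1
    · rw [ha, h]; exact h2
  have hmaxI : max (V s) (V t) ∈ I := by
    rcases max_choice (V s) (V t) with h | h
    · rw [h]; exact hVs
    · rw [h]; exact hVt
  obtain ⟨b, hbI, hb⟩ := hex _ hmaxI
  have hapos : 0 < a := hI haI
  have has : a < V s := lt_of_le_of_lt (min_le_left _ _) hPs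
  have hat : a < V t := lt_of_le_of_lt (min_le_right _ _) hQt
  have hsb : V s < b := lt_of_le_of_lt (le_max_left _ _) hb
  have htb : V t < b := lt_of_le_of_lt (le_max_right _ _) hb
  have heqv := eqv_all hdim hapos (has.trans hsb) hs ht hsci htci (hapos.trans has) (hapos.trans hat)
  have hlink := heqv 1 1 one_pos one_pos (by rw [one_smul]; exact ⟨has, hsb⟩)
    (by rw [one_smul]; exact ⟨hat, htb⟩)
  rw [one_smul, one_smul] at hlink
  have hlinkI : Link I (convexHull ℝ s) (convexHull ℝ t) :=
    hlink.mono (fun z hz => hoc.out haI hbI (Ioo_subset_Icc_self hz))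
  exact (hl1.trans hlinkI).trans hl2.symm

/-- there are simplices of any given volume -/
lemma exists_simplex_volume (hdim : 2 ≤ Module.finrank ℝ E) {v : ℝ} (hv : 0 < v) :
    ∃ b : AffineBasis (Fin (Module.finrank ℝ E + 1)) ℝ E, V (range b) = v := by
  classical
  obtain ⟨s, b0, hb0⟩ := AffineBasis.exists_affineBasis ℝ E E
  have hfin : s.Finite := by
    have h1 := b0.ind
    exact finite_set_of_fin_dim_affineIndependent ℝ (by rw [hb0] at h1; exact h1)
  have : Fintype s := hfin.fintype
  have hcard : Fintype.card s = Module.finrank ℝ E + 1 := b0.card_eq_finrank_add_one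
  let e : s ≃ Fin (Module.finrank ℝ E + 1) := Fintype.equivFinOfCardEq hcard
  let b := b0.reindex e
  obtain ⟨r, hr, hVr⟩ := exists_scale hdim (V_basis_pos b) hv
  refine ⟨Units.mk0 r hr.ne' • b, ?_⟩
  rw [AffineBasis.coe_smul]
  have : range (Units.mk0 r hr.ne' • (b : Fin (Module.finrank ℝ E + 1) → E)) = r • range b := by
    rw [← range_smul_config]
    rfl
  rw [this]
  exact hVr

/-- The negative part: a simplex with the greatest admissible volume is isolated. -/
lemma isolated {I : Set ℝ} {v : ℝ} (hI : I ⊆ Ioi 0) (hv : IsGreatest I v)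
    (b : AffineBasis (Fin (Module.finrank ℝ E + 1)) ℝ E) (hb : V (range b) = v)
    (R : Polytope E) (hR : R ∈ window I) (hP : IsPolytope (convexHull ℝ (range b))) :
    ¬ (Gamma E).Adj ⟨convexHull ℝ (range b), hP⟩ R := by
  intro hadj
  obtain ⟨hne, hadj⟩ := (SimpleGraph.fromRel_adj Insertion _ _).mp hadj
  have hfin : (range b).Finite := finite_range b
  have hext : (convexHull ℝ (range b)).extremePoints ℝ = range b :=
    extreme_of_CI hfin (CI_range (CI_basis b))
  rcases hadj with ⟨x, h1, h2⟩ | ⟨x, h1, h2⟩
  · -- insertion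
    simp only at h1 h2
    have hx : x ∉ convexHull ℝ (range b) := by
      intro hx
      apply hne
      apply Subtype.ext
      show convexHull ℝ (range b) = R.1
      rw [h1, union_singleton, insert_eq_of_mem hx, (convex_convexHull ℝ _).convexHull_eq]
    have h3 : R.1 = convexHull ℝ (insert x (range b)) := by
      rw [h1]
      apply Subset.antisymm
      · apply convexHull_min _ (convex_convexHull ℝ _)
        rintro y (hy | hy)
        · exact convexHull_mono (subset_insert x _) hy
        · rw [mem_singleton_iff] at hy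
          rw [hy]
          exact subset_convexHull ℝ _ (mem_insert x _)
      · apply convexHull_mono
        intro y hy
        rcases hy with hy | hy
        · exact Or.inr hy
        · exact Or.inl (subset_convexHull ℝ _ hy)
    have h4 := V_lt_insert hfin (V_basis_pos b) hx
    have h5 : (volume R.1).toReal ∈ I := hR
    rw [h3] at h5
    have h6 : V (insert x (range b)) ≤ v := hv.2 h5
    rw [hb] at h4
    linarith
  · -- deletion
    simp only at h1 h2
    rw [hext] at h2
    obtain ⟨⟨t, ht, htR⟩, hint⟩ := R.2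
    have hhull : convexHull ℝ (R.1.extremePoints ℝ) = R.1 := by
      rw [← htR]
      exact hull_extreme ht
    have hsub : R.1.extremePoints ℝ ⊆ range b := by
      rw [h2]; exact subset_union_left
    have hneq : R.1.extremePoints ℝ ≠ range b := by
      intro heq
      apply hne
      apply Subtype.ext
      show convexHull ℝ (range b) = R.1
      rw [← heq, hhull]
    obtain ⟨y, hy, hy'⟩ := exists_of_ssubset (ssubset_of_subset_of_ne hsub hneq)
    obtain ⟨i, rfl⟩ := hy
    have hspan : affineSpan ℝ (R.1.extremePoints ℝ) = ⊤ := by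
      rw [← interior_convexHull_nonempty_iff_affineSpan_eq_top, hhull]
      exact hint
    have h7 : b.coord i (b i) = 0 := by
      apply coord_span_zero b i (R.1.extremePoints ℝ)
      · intro z hz
        obtain ⟨l, rfl⟩ := hsub hz
        apply b.coord_apply_ne
        rintro rfl
        exact hy' hz
      · rw [hspan]; trivial
    rw [b.coord_apply_eq] at h7
    exact one_ne_zero h7

/-- Characterisation. -/
theorem main (hdim : 2 ≤ Module.finrank ℝ E) (I : Set ℝ) (hI : I ⊆ Ioi 0) (hoc : I.OrdConnected)
    (hnt : I.Nontrivial) :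
    ((Gamma E).induce (window I)).Connected ↔ ¬ ∃ b, IsGreatest I b := by
  constructor
  · rintro hconn ⟨v, hv⟩
    obtain ⟨w, hw, hwv⟩ := hnt.exists_ne v
    obtain ⟨b, hb⟩ := exists_simplex_volume (E := E) hdim (hI hv.1 : (0 : ℝ) < v)
    obtain ⟨b', hb'⟩ := exists_simplex_volume (E := E) hdim (hI hw : (0 : ℝ) < w)
    have hP : IsPolytope (convexHull ℝ (range b)) :=
      isPolytope_hull (finite_range b) (interior_of_V_pos (V_basis_pos b))
    have hP' : IsPolytope (convexHull ℝ (range b')) :=
      isPolytope_hull (finite_range b') (interior_of_V_pos (V_basis_pos b'))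
    have hPw : (⟨_, hP⟩ : Polytope E) ∈ window I := by
      show V (range b) ∈ I
      rw [hb]; exact hv.1
    have hPw' : (⟨_, hP'⟩ : Polytope E) ∈ window I := by
      show V (range b') ∈ I
      rw [hb']; exact hw
    have hne : (⟨⟨_, hP⟩, hPw⟩ : window I) ≠ ⟨⟨_, hP'⟩, hPw'⟩ := by
      intro heq
      have h1 : convexHull ℝ (range b) = convexHull ℝ (range b') :=
        congrArg (fun z : window I => z.1.1) heq
      apply hwv
      rw [← hb, ← hb']
      unfold V
      rw [h1]
    have : Nontrivial (window (E := E) I) := ⟨⟨_, _, hne⟩⟩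
    obtain ⟨R, hR⟩ := hconn.preconnected.exists_adj_of_nontrivial
      (⟨⟨_, hP⟩, hPw⟩ : window I)
    exact isolated hI hv b hb R.1 R.2 hP hR
  · intro hng
    obtain ⟨v, hv⟩ := hnt.nonempty
    obtain ⟨b, hb⟩ := exists_simplex_volume (E := E) hdim (hI hv : (0 : ℝ) < v)
    have hP : IsPolytope (convexHull ℝ (range b)) :=
      isPolytope_hull (finite_range b) (interior_of_V_pos (V_basis_pos b))
    have hPw : (⟨_, hP⟩ : Polytope E) ∈ window I := by
      show V (range b) ∈ I
      rw [hb]; exact hv
    have hne : Nonempty (window (E := E) I) := ⟨⟨_, hPw⟩⟩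
    refine ⟨fun P Q => ?_⟩
    obtain ⟨_, _, _, _, h⟩ := link_all hdim hI hoc hng P.1.2 Q.1.2 P.2 Q.2
    exact h

end

end Pool.Agent.Lib.MP_208a82_co
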